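import Pool.Agent.K7.H30.HB.Geom

/-!
# The bounds for `k`-lines
-/

set_option autoImplicit false

namespace Pool.Agent.K7.H30.HB

open Finset Pool.Agent.TH124.KE Pool.Agent.Y429.HalvFew
open Pool.Agent.W296.HL (cr Gen)
open Pool.Agent.R117.KR (IsKLine IsBisector Line psi psi_div FF FF_close zt inv_of_primitive)

variable {P : Finset (ℝ × ℝ)} {k : ℕ}

/-- the shear as a linear equivalence -/
def shrL (ε : ℝ) : (ℝ × ℝ) ≃ₗ[ℝ] (ℝ × ℝ) where
  toFun := shr ε
  invFun := shr (-ε)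
  left_inv x := by unfold shr; ext <;> simp
  right_inv x := by unfold shr; ext <;> simp
  map_add' x y := by
    unfold shr
    ext
    · simp; ring
    · simp
  map_smul' c x := by
    unfold shr
    ext
    · simp; ring
    · simp

lemma shrL_apply (ε : ℝ) (x : ℝ × ℝ) : shrL ε x = shr ε x := rfl

lemma shrL_symm (ε : ℝ) (x : ℝ × ℝ) : (shrL ε).symm x = shr (-ε) x := rfl

lemma shr_shr (ε : ℝ) (x : ℝ × ℝ) : shr (-ε) (shr ε x) = x := by
  unfold shr; ext <;> simp

lemma shr_shr' (ε : ℝ) (x : ℝ × ℝ) : shr ε (shr (-ε) x) = x := by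
  unfold shr; ext <;> simp

open scoped Classical in
/-- a bound for the lines of the subsets of `P` bounds the edges of the subsets of the sheared
set -/
lemma hered {ε : ℝ} {G : ℝ} {w : ℕ}
    (hG : ∀ Q ⊆ P, ∀ j, #Q ≤ w → ({L | IsKLine Q j L}.ncard : ℝ) ≤ G) :
    ∀ (Q : Finset (ℝ × ℝ)) (j : ℕ), GP Q → Q ⊆ P.image (shr ε) → #Q ≤ w →
      (#(kes Q j) : ℝ) ≤ G := by
  intro Q j hQ hQP hw
  have h1 : (Q.image (shr (-ε))).image (shr ε) = Q := by
    rw [Finset.image_image]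
    convert Finset.image_id using 1
    congr 1
    ext x : 1
    exact shr_shr' ε x
  have h2 : Q.image (shr (-ε)) ⊆ P := by
    intro x hx
    obtain ⟨y, hy, rfl⟩ := mem_image.mp hx
    obtain ⟨z, hz, rfl⟩ := mem_image.mp (hQP hy)
    rw [shr_shr]
    exact hz
  have h3 := le_kline (Q := Q.image (shr (-ε))) (ε := ε) (by rw [h1]; exact hQ) j
  rw [h1] at h3
  refine le_trans ?_ (hG _ h2 j (Finset.card_image_le.trans hw))
  exact_mod_cast h3

open scoped Classical in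
lemma iso_shear {e : (ℝ × ℝ) ≃ₗ[ℝ] ℂ} {o : ℝ × ℝ} {D : ℕ} (hI : NearlyIsotropic P e o D) (ε : ℝ) :
    NearlyIsotropic (P.image (shr ε)) ((shrL ε).symm.trans e) (shr ε o) D := by
  intro u u' hu hu' c
  have h := hI u u' hu hu' c
  have key : ∀ p, ((shrL ε).symm.trans e) (shr ε p - shr ε o) = e (p - o) := by
    intro p
    rw [LinearEquiv.trans_apply, ← shrL_apply, ← shrL_apply, ← map_sub,
      LinearEquiv.symm_apply_apply]
  rw [Finset.filter_image, Finset.filter_image, Finset.card_image_of_injective _ (shr_inj ε),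
    Finset.card_image_of_injective _ (shr_inj ε)]
  simp only [key]
  exact h

open scoped Classical in
/-- nearly isotropic sets, relative bound -/
theorem iso_main (hP : Gen P) {e : (ℝ × ℝ) ≃ₗ[ℝ] ℂ} {o : ℝ × ℝ} {D : ℕ} (hI : NearlyIsotropic P e o D)
    (k : ℕ) (G : ℝ)
    (hG : ∀ Q ⊆ P, ∀ j, #Q ≤ 8 * D + 4 → ({L | IsKLine Q j L}.ncard : ℝ) ≤ G) :
    (4 * D + 3) * ({L | IsKLine P k L}.ncard : ℝ) ≤ 2 * (4 * #P + (4 * D + 3)) * G := by
  obtain ⟨ε, hε⟩ := exists_shear P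
  have hGP := gp_shear hP hε
  have hcard : #(P.image (shr ε)) = #P := Finset.card_image_of_injective _ (shr_inj ε)
  have hI' := iso_shear hI ε
  have hG' := hered (ε := ε) hG
  have hb : ∀ k, (#(kes (P.image (shr ε)) k) : ℝ) * (4 * D + 3) ≤ (4 * #P + (4 * D + 3)) * G := by
    intro k
    have h := iso_kes (k := k) hGP hI' G (fun Q j h1 h2 h3 => hG' Q j h1 h2 (by omega))
    rw [hcard] at h
    push_cast at h
    have e1 : (4 * (D : ℝ) + 2 + 1) = 4 * D + 3 := by ring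
    rw [e1] at h
    exact h
  have h1 := kline_le hP hε k
  have h2 : ({L | IsKLine P k L}.ncard : ℝ) ≤ #(kes (P.image (shr ε)) k) +
      #(kes (P.image (shr ε)) (#P - 2 - k)) := by exact_mod_cast h1
  have h3 := hb k
  have h4 := hb (#P - 2 - k)
  have h5 : (0 : ℝ) ≤ 4 * D + 3 := by positivity
  nlinarith

lemma rpow_third_mul {a b y : ℝ} (ha : 0 ≤ a) (hb : 0 ≤ b) (hy : 0 ≤ y) (hab : a ≤ b ^ 3) :
    (a * y) ^ (1 / 3 : ℝ) ≤ b * y ^ (1 / 3 : ℝ) := by
  rw [Real.mul_rpow ha hy]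
  refine mul_le_mul_of_nonneg_right ?_ (Real.rpow_nonneg hy _)
  calc a ^ (1 / 3 : ℝ) ≤ (b ^ (3 : ℝ)) ^ (1 / 3 : ℝ) := by
        apply Real.rpow_le_rpow ha _ (by norm_num)
        rw [show (3 : ℝ) = ((3 : ℕ) : ℝ) by norm_num, Real.rpow_natCast]
        exact hab
    _ = b := by
        rw [← Real.rpow_mul hb]
        norm_num

open scoped Classical in
/-- nearly isotropic sets -/
theorem iso_num (hP : Gen P) {e : (ℝ × ℝ) ≃ₗ[ℝ] ℂ} {o : ℝ × ℝ} {D : ℕ} (hI : NearlyIsotropic P e o D)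
    (k : ℕ) :
    ({L | IsKLine P k L}.ncard : ℝ) ≤ 300 * #P * ((D : ℝ) + 1) ^ (1 / 3 : ℝ) := by
  obtain ⟨ε, hε⟩ := exists_shear P
  have hGP := gp_shear hP hε
  have hcard : #(P.image (shr ε)) = #P := Finset.card_image_of_injective _ (shr_inj ε)
  have hI' := iso_shear hI ε
  have hb : ∀ k, (#(kes (P.image (shr ε)) k) : ℝ) ≤
      89 * #P * ((4 * D + 2 : ℕ) : ℝ) ^ (1 / 3 : ℝ) := by
    intro k
    have h := iso_kes (k := k) hGP hI' (7 * (2 * (4 * D + 2 : ℕ) : ℝ) ^ (4 / 3 : ℝ))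
      (fun Q j h1 _ h3 => bound_small h1 j (by exact_mod_cast h3))
    rw [hcard] at h
    have h2 := bound_small hGP k le_rfl
    rw [hcard] at h2
    exact numeric h h2
  have h1 := kline_le hP hε k
  have h2 : ({L | IsKLine P k L}.ncard : ℝ) ≤ #(kes (P.image (shr ε)) k) +
      #(kes (P.image (shr ε)) (#P - 2 - k)) := by exact_mod_cast h1
  have h3 := hb k
  have h4 := hb (#P - 2 - k)
  have h5 : ((4 * D + 2 : ℕ) : ℝ) ^ (1 / 3 : ℝ) ≤ 1.6 * ((D : ℝ) + 1) ^ (1 / 3 : ℝ) := by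
    refine le_trans ?_ (rpow_third_mul (a := 4) (b := 1.6) (y := (D : ℝ) + 1) (by norm_num)
      (by norm_num) (by positivity) (by norm_num))
    apply Real.rpow_le_rpow (by positivity) _ (by norm_num)
    push_cast
    linarith
  have h6 : (0 : ℝ) ≤ #P := Nat.cast_nonneg _
  have h7 : (0 : ℝ) ≤ ((D : ℝ) + 1) ^ (1 / 3 : ℝ) := by positivity
  have h8 : (#P : ℝ) * ((4 * D + 2 : ℕ) : ℝ) ^ (1 / 3 : ℝ) ≤
      #P * (1.6 * ((D : ℝ) + 1) ^ (1 / 3 : ℝ)) := mul_le_mul_of_nonneg_left h5 h6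
  have h9 : 0 ≤ (#P : ℝ) * ((D : ℝ) + 1) ^ (1 / 3 : ℝ) := by positivity
  nlinarith

/-! ### symmetric sets -/

open scoped Classical in
theorem sym_iso {m : ℕ} (hm : 1 ≤ m) {ξ : ℂ} (hξ : IsPrimitiveRoot ξ m)
    {R : Finset (ℝ × ℝ)} {e : (ℝ × ℝ) ≃ₗ[ℝ] ℂ} {o : ℝ × ℝ}
    (hR : ∀ p ∈ R, o + e.symm (ξ * e (p - o)) ∈ R) {t : ℕ}
    (ht : (P \ R).card + (R \ P).card ≤ t) :
    NearlyIsotropic P e o (2 * (#P + t) / m + t) := by
  intro u u' hu hu' c
  set φ : ℝ × ℝ → ℂ := fun p => e (p - o) with hφ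
  have hφi : Function.Injective φ := by
    intro p q h
    have := e.injective h
    simpa using this
  set R' : Finset ℂ := R.image φ with hR'
  have hRi : ∀ z ∈ R', ξ * z ∈ R' := by
    intro z hz
    rw [hR', mem_image] at hz
    obtain ⟨p, hp, rfl⟩ := hz
    rw [hR', mem_image]
    refine ⟨_, hR p hp, ?_⟩
    simp [hφ]
  have hRz := inv_of_primitive hm hξ hRi
  set R0 := R'.filter (fun z => z ≠ 0) with hR0
  have hR0z : ∀ z ∈ R0, zt m * z ∈ R0 := by
    intro z hz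
    rw [hR0, mem_filter] at hz ⊢
    exact ⟨hRz z hz.1, mul_ne_zero (Pool.Agent.R117.KR.zt_ne m) hz.2⟩
  have hm0 : (0 : ℝ) < m := by exact_mod_cast hm
  -- the counts for `R`
  have hcount : ∀ u, #{p ∈ R | c < psi u (e (p - o))} =
      #{z ∈ R0 | c < psi u z} + #{z ∈ R' | z = 0 ∧ c < 0} := by
    intro u
    have h1 : #{p ∈ R | c < psi u (e (p - o))} = #{z ∈ R' | c < psi u z} := by
      rw [hR', Finset.filter_image, Finset.card_image_of_injective _ hφi]
    rw [h1, ← Finset.card_filter_add_card_filter_not (s := {z ∈ R' | c < psi u z})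
      (fun z => z ≠ 0)]
    congr 1
    · congr 1
      ext z
      simp only [hR0, mem_filter]
      tauto
    · congr 1
      ext z
      simp only [mem_filter, not_not]
      constructor
      · rintro ⟨⟨h2, h3⟩, h4⟩
        subst h4
        refine ⟨h2, rfl, ?_⟩
        simpa [psi] using h3
      · rintro ⟨h2, h3, h4⟩
        subst h3
        refine ⟨⟨h2, ?_⟩, rfl⟩
        simpa [psi] using h4
  have hR0card : #R0 ≤ #P + t := by
    have h1 : #R0 ≤ #R' := Finset.card_filter_le _ _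
    have h2 : #R' = #R := Finset.card_image_of_injective _ hφi
    have h3 : #R ≤ #(R \ P) + #P := by
      have := Finset.card_le_card (s := R) (t := (R \ P) ∪ P) (by
        intro x hx
        by_cases hxP : x ∈ P
        · exact mem_union_right _ hxP
        · exact mem_union_left _ (mem_sdiff.mpr ⟨hx, hxP⟩))
      exact this.trans (Finset.card_union_le _ _)
    omega
  have hclose : #{z ∈ R0 | c < psi u z} ≤ #{z ∈ R0 | c < psi u' z} + 2 * (#P + t) / m := by
    have h1 := (FF_close hm hR0z (fun z hz => (mem_filter.mp hz).2) u hu c).2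
    have h2 := (FF_close hm hR0z (fun z hz => (mem_filter.mp hz).2) u' hu' c).1
    have h3 : (#{z ∈ R0 | c < psi u z} : ℝ) ≤ #{z ∈ R0 | c ≤ psi u z} := by
      have : #{z ∈ R0 | c < psi u z} ≤ #{z ∈ R0 | c ≤ psi u z} := by
        apply Finset.card_le_card
        intro z hz
        rw [mem_filter] at hz ⊢
        exact ⟨hz.1, hz.2.le⟩
      exact_mod_cast this
    have h4 : (#{z ∈ R0 | c < psi u z} : ℝ) ≤ #{z ∈ R0 | c < psi u' z} + 2 * #R0 / m := by
      have h5 := h3.trans h1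
      have h6 : 2 * (#R0 : ℝ) / m = #R0 / m + #R0 / m := by ring
      rw [h6]
      linarith
    have h7 : m * #{z ∈ R0 | c < psi u z} ≤ m * #{z ∈ R0 | c < psi u' z} + 2 * (#P + t) := by
      have h8 := mul_le_mul_of_nonneg_left h4 hm0.le
      rw [mul_add, mul_div_cancel₀ _ hm0.ne'] at h8
      have h9 : (#R0 : ℝ) ≤ #P + t := by exact_mod_cast hR0card
      have h10 : (m : ℝ) * #{z ∈ R0 | c < psi u z} ≤
          m * #{z ∈ R0 | c < psi u' z} + 2 * (#P + t) := by linarith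
      exact_mod_cast h10
    by_contra hcon
    push Not at hcon
    have h8 : 2 * (#P + t) / m + 1 ≤ #{z ∈ R0 | c < psi u z} - #{z ∈ R0 | c < psi u' z} := by
      omega
    have h9 := Nat.mul_le_mul_left m h8
    have h10 : 2 * (#P + t) < m * (2 * (#P + t) / m + 1) := by
      have := Nat.lt_mul_div_succ (2 * (#P + t)) (show 0 < m by omega)
      simpa using this
    rw [Nat.mul_sub] at h9
    omega
  -- comparing `P` and `R`
  have hPR : ∀ u, #{p ∈ P | c < psi u (e (p - o))} ≤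
      #{p ∈ R | c < psi u (e (p - o))} + #(P \ R) := by
    intro u
    refine le_trans (Finset.card_le_card ?_) (Finset.card_union_le _ _)
    intro x hx
    rw [mem_filter] at hx
    by_cases hxR : x ∈ R
    · exact mem_union_left _ (mem_filter.mpr ⟨hxR, hx.2⟩)
    · exact mem_union_right _ (mem_sdiff.mpr ⟨hx.1, hxR⟩)
  have hRP : ∀ u, #{p ∈ R | c < psi u (e (p - o))} ≤
      #{p ∈ P | c < psi u (e (p - o))} + #(R \ P) := by
    intro u
    refine le_trans (Finset.card_le_card ?_) (Finset.card_union_le _ _)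
    intro x hx
    rw [mem_filter] at hx
    by_cases hxR : x ∈ P
    · exact mem_union_left _ (mem_filter.mpr ⟨hxR, hx.2⟩)
    · exact mem_union_right _ (mem_sdiff.mpr ⟨hx.1, hxR⟩)
  have h1 := hPR u
  have h2 := hRP u'
  rw [hcount] at h1 h2
  omega

open scoped Classical in
/-- sets with an affine symmetry of order `m`, up to `t` points -/
theorem sym_num (hP : Gen P) {m : ℕ} (hm : 1 ≤ m) {ξ : ℂ} (hξ : IsPrimitiveRoot ξ m)
    {R : Finset (ℝ × ℝ)} {e : (ℝ × ℝ) ≃ₗ[ℝ] ℂ} {o : ℝ × ℝ}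
    (hR : ∀ p ∈ R, o + e.symm (ξ * e (p - o)) ∈ R) {t : ℕ}
    (ht : (P \ R).card + (R \ P).card ≤ t) (k : ℕ) :
    ({L | IsKLine P k L}.ncard : ℝ) ≤ 450 * #P * ((#P : ℝ) / m + t + 1) ^ (1 / 3 : ℝ) := by
  have h := iso_num hP (sym_iso hm hξ hR ht) k
  have hm0 : (1 : ℝ) ≤ m := by exact_mod_cast hm
  have hP0 : (0 : ℝ) ≤ #P := Nat.cast_nonneg _
  have ht0 : (0 : ℝ) ≤ t := Nat.cast_nonneg _
  have h1 : ((2 * (#P + t) / m + t : ℕ) : ℝ) + 1 ≤ 3 * ((#P : ℝ) / m + t + 1) := by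
    have h2 : (((2 * (#P + t) / m : ℕ)) : ℝ) ≤ 2 * (#P + t) / m := by
      refine (Nat.cast_div_le).trans ?_
      push_cast
      exact le_rfl
    push_cast at h2 ⊢
    have h3 : 2 * ((#P : ℝ) + t) / m ≤ 2 * ((#P : ℝ) / m) + 2 * t := by
      rw [mul_add, add_div, mul_div_assoc]
      have : 2 * (t : ℝ) / m ≤ 2 * t := div_le_self (by positivity) hm0
      linarith
    have h4 : 0 ≤ (#P : ℝ) / m := by positivity
    linarith
  have h2 : (((2 * (#P + t) / m + t : ℕ) : ℝ) + 1) ^ (1 / 3 : ℝ) ≤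
      1.5 * ((#P : ℝ) / m + t + 1) ^ (1 / 3 : ℝ) := by
    refine le_trans ?_ (rpow_third_mul (a := 3) (b := 1.5) (by norm_num) (by norm_num)
      (by positivity) (by norm_num))
    exact Real.rpow_le_rpow (by positivity) h1 (by norm_num)
  have h3 := mul_le_mul_of_nonneg_left h2 (show (0 : ℝ) ≤ 300 * #P by positivity)
  refine h.trans (h3.trans (le_of_eq ?_))
  ring

lemma bisector_le (P : Finset (ℝ × ℝ)) :
    {L | IsBisector P L}.ncard ≤ {L | IsKLine P (#P / 2 - 1) L}.ncard := by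
  refine Set.ncard_le_ncard ?_ (Pool.Agent.R117.KR.kline_finite P _)
  rintro L ⟨a, b, c, hab, hL, hpq, -, h2⟩
  exact ⟨a, b, c, hab, hL, hpq, h2⟩

/-! ### lines that meet a convex set -/

open scoped Classical in
lemma isK {ε : ℝ} {f : Seg} (h1 : f.1 ∈ P.image (shr ε)) (h2 : f.2 ∈ P.image (shr ε))
    (h3 : f.1.1 < f.2.1) :
    IsKLine P (bel (P.image (shr ε)) (ss f) f.1)
      {x : ℝ × ℝ | hh (ss f) (shr ε x) = hh (ss f) f.1} ∧
    IsKLine P (abv (P.image (shr ε)) (ss f) f.1)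
      {x : ℝ × ℝ | hh (ss f) (shr ε x) = hh (ss f) f.1} := by
  obtain ⟨p, hp, hp1⟩ := mem_image.mp h1
  obtain ⟨q, hq, hq1⟩ := mem_image.mp h2
  have hpq : p ≠ q := by
    rintro rfl
    rw [← hp1, ← hq1] at h3
    exact lt_irrefl _ h3
  have hpL : hh (ss f) (shr ε p) = hh (ss f) f.1 := by rw [hp1]
  have hqL : hh (ss f) (shr ε q) = hh (ss f) f.1 := by
    rw [hq1]
    exact hh_sl h3.ne
  constructor
  · refine ⟨ss f, ss f * ε - 1, - hh (ss f) f.1, ?_, ?_, ⟨p, hp, q, hq, hpq, hpL, hqL⟩, ?_⟩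
    · by_contra hcon
      push Not at hcon
      rw [hcon.1] at hcon
      linarith [hcon.2]
    · ext x
      simp only [Set.mem_ofPred_eq, Line]
      unfold hh shr
      constructor <;> intro h <;> linarith
    · unfold bel
      rw [Finset.filter_image, Finset.card_image_of_injective _ (shr_inj ε)]
      congr 1
      apply Finset.filter_congr
      intro x _
      unfold ss hh shr
      simp only
      constructor <;> intro h <;> linarith
  · refine ⟨- ss f, 1 - ss f * ε, hh (ss f) f.1, ?_, ?_, ⟨p, hp, q, hq, hpq, hpL, hqL⟩, ?_⟩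
    · by_contra hcon
      push Not at hcon
      have h4 : ss f = 0 := by linarith [hcon.1]
      rw [h4] at hcon
      linarith [hcon.2]
    · ext x
      simp only [Set.mem_ofPred_eq, Line]
      unfold hh shr
      constructor <;> intro h <;> linarith
    · unfold abv
      rw [Finset.filter_image, Finset.card_image_of_injective _ (shr_inj ε)]
      congr 1
      apply Finset.filter_congr
      intro x _
      unfold ss hh shr
      simp only
      constructor <;> intro h <;> linarith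

open scoped Classical in
lemma kline_card {L : Set (ℝ × ℝ)} (hL : IsKLine P k L) : k + 2 ≤ #P := by
  obtain ⟨a, b, c, hab, rfl, ⟨p, hp, q, hq, hpq, hpL, hqL⟩, hk⟩ := hL
  have h1 : #({p ∈ P | c < a * p.1 + b * p.2} ∪ {p, q}) = k + 2 := by
    rw [Finset.card_union_of_disjoint, hk, card_pair hpq]
    rw [Finset.disjoint_right]
    intro x hx hx2
    rw [mem_filter] at hx2
    have hpe : a * p.1 + b * p.2 = c := hpL
    have hqe : a * q.1 + b * q.2 = c := hqL
    rw [mem_insert, mem_singleton] at hx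
    rcases hx with rfl | rfl
    · linarith [hx2.2]
    · linarith [hx2.2]
  rw [← h1]
  apply Finset.card_le_card
  intro x hx
  rw [mem_union, mem_filter, mem_insert, mem_singleton] at hx
  rcases hx with hx | rfl | rfl
  · exact hx.1
  · exact hp
  · exact hq

open scoped Classical in
/-- the hypotheses for the sheared set -/
lemma conv_shear (hP : Gen P) {ε : ℝ}
    (hε : ∀ x ∈ P, ∀ y ∈ P, (shr ε x).1 = (shr ε y).1 → x = y) {K : Set (ℝ × ℝ)}
    {V : ℕ} (hmeet : ∀ L, IsKLine P k L → (L ∩ K).Nonempty)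
    (hV : ∀ a b : ℝ, (a ≠ 0 ∨ b ≠ 0) →
      #{p ∈ P | ∃ x ∈ K, a * x.1 + b * x.2 = a * p.1 + b * p.2} ≤ V)
    (hk : k + 2 ≤ #P) :
    (∀ k', (k' = k ∨ k' = #P - 2 - k) → ∀ f ∈ kes (P.image (shr ε)) k',
      ∃ x ∈ shr ε '' K, hh (ss f) x = hh (ss f) f.1) ∧
    (∀ σ, #{p ∈ P.image (shr ε) | ∃ x ∈ shr ε '' K, hh σ x = hh σ p} ≤ V) := by
  have hGP := gp_shear hP hε
  have hcard : #(P.image (shr ε)) = #P := Finset.card_image_of_injective _ (shr_inj ε)
  constructor
  · intro k' hk' f hf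
    obtain ⟨h1, h2, h3, h4⟩ := mem_kes.mp hf
    have h4' : bel (P.image (shr ε)) (ss f) f.1 = k' := h4
    have h5 := bel_abv hGP h1 h2 h3
    rw [h4, hcard] at h5
    have h5' : k' + abv (P.image (shr ε)) (ss f) f.1 + 2 = #P := h5
    obtain ⟨hb, ha⟩ := isK (P := P) h1 h2 h3
    have hK : IsKLine P k {x : ℝ × ℝ | hh (ss f) (shr ε x) = hh (ss f) f.1} := by
      rcases hk' with rfl | hk'
      · rw [h4'] at hb
        exact hb
      · have : abv (P.image (shr ε)) (ss f) f.1 = k := by omega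
        rw [this] at ha
        exact ha
    obtain ⟨x, hx1, hx2⟩ := hmeet _ hK
    exact ⟨shr ε x, ⟨x, hx2, rfl⟩, hx1⟩
  · intro σ
    have hab : (-σ ≠ 0 ∨ (1 - σ * ε) ≠ 0) := by
      by_contra hcon
      push Not at hcon
      have h4 : σ = 0 := by linarith [hcon.1]
      rw [h4] at hcon
      linarith [hcon.2]
    refine le_trans ?_ (hV (-σ) (1 - σ * ε) hab)
    rw [Finset.filter_image, Finset.card_image_of_injective _ (shr_inj ε)]
    apply Finset.card_le_card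
    intro p hp
    rw [mem_filter] at hp ⊢
    obtain ⟨hp1, y, ⟨x, hx, rfl⟩, h⟩ := hp
    refine ⟨hp1, x, hx, ?_⟩
    unfold hh shr at h
    simp only at h
    linarith

lemma convex_shear {K : Set (ℝ × ℝ)} (hK : Convex ℝ K) (ε : ℝ) : Convex ℝ (shr ε '' K) := by
  have h := hK.linear_image ((shrL ε : (ℝ × ℝ) ≃ₗ[ℝ] (ℝ × ℝ)) : (ℝ × ℝ) →ₗ[ℝ] (ℝ × ℝ))
  exact h

open scoped Classical in
/-- lines meeting a convex set, relative bound -/
theorem conv_main (hP : Gen P) {K : Set (ℝ × ℝ)} (hK : Convex ℝ K) {V : ℕ}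
    (hmeet : ∀ L, IsKLine P k L → (L ∩ K).Nonempty)
    (hV : ∀ a b : ℝ, (a ≠ 0 ∨ b ≠ 0) →
      #{p ∈ P | ∃ x ∈ K, a * x.1 + b * x.2 = a * p.1 + b * p.2} ≤ V) (G : ℝ)
    (hG : ∀ Q ⊆ P, ∀ j, #Q ≤ 2 * V → ({L | IsKLine Q j L}.ncard : ℝ) ≤ G) :
    (V + 1) * ({L | IsKLine P k L}.ncard : ℝ) ≤ 2 * (4 * #P + (V + 1)) * G := by
  have hG0 : 0 ≤ G := le_trans (Nat.cast_nonneg _) (hG ∅ (empty_subset _) 0 (by simp))
  rcases Set.eq_empty_or_nonempty {L | IsKLine P k L} with h0 | ⟨L₀, hL₀⟩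
  · rw [h0]
    simp
    positivity
  have hk : k + 2 ≤ #P := kline_card hL₀
  obtain ⟨ε, hε⟩ := exists_shear P
  have hGP := gp_shear hP hε
  have hcard : #(P.image (shr ε)) = #P := Finset.card_image_of_injective _ (shr_inj ε)
  obtain ⟨hm', hV'⟩ := conv_shear hP hε hmeet hV hk
  have hG' := hered (ε := ε) hG
  have hb : ∀ k', (k' = k ∨ k' = #P - 2 - k) →
      (#(kes (P.image (shr ε)) k') : ℝ) * (V + 1) ≤ (4 * #P + (V + 1)) * G := by
    intro k' hk'
    have h := conv_kes (k := k') hGP (convex_shear hK ε) (hm' k' hk') hV' G hG'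
    rw [hcard] at h
    exact h
  have h1 := kline_le hP hε k
  have h2 : ({L | IsKLine P k L}.ncard : ℝ) ≤ #(kes (P.image (shr ε)) k) +
      #(kes (P.image (shr ε)) (#P - 2 - k)) := by exact_mod_cast h1
  have h3 := hb k (Or.inl rfl)
  have h4 := hb (#P - 2 - k) (Or.inr rfl)
  have h5 : (0 : ℝ) ≤ V + 1 := by positivity
  nlinarith

open scoped Classical in
/-- lines meeting a convex set -/
theorem conv_num (hP : Gen P) {K : Set (ℝ × ℝ)} (hK : Convex ℝ K) {V : ℕ}
    (hmeet : ∀ L, IsKLine P k L → (L ∩ K).Nonempty)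
    (hV : ∀ a b : ℝ, (a ≠ 0 ∨ b ≠ 0) →
      #{p ∈ P | ∃ x ∈ K, a * x.1 + b * x.2 = a * p.1 + b * p.2} ≤ V) :
    ({L | IsKLine P k L}.ncard : ℝ) ≤ 178 * #P * (V : ℝ) ^ (1 / 3 : ℝ) := by
  rcases Set.eq_empty_or_nonempty {L | IsKLine P k L} with h0 | ⟨L₀, hL₀⟩
  · rw [h0]
    simp
    positivity
  have hk : k + 2 ≤ #P := kline_card hL₀
  obtain ⟨ε, hε⟩ := exists_shear P
  have hGP := gp_shear hP hε
  have hcard : #(P.image (shr ε)) = #P := Finset.card_image_of_injective _ (shr_inj ε)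
  obtain ⟨hm', hV'⟩ := conv_shear hP hε hmeet hV hk
  have hb : ∀ k', (k' = k ∨ k' = #P - 2 - k) →
      (#(kes (P.image (shr ε)) k') : ℝ) ≤ 89 * #P * (V : ℝ) ^ (1 / 3 : ℝ) := by
    intro k' hk'
    have h := conv_kes (k := k') hGP (convex_shear hK ε) (hm' k' hk') hV'
      (7 * (2 * V : ℝ) ^ (4 / 3 : ℝ)) (fun Q j h1 _ h3 => bound_small h1 j (by exact_mod_cast h3))
    rw [hcard] at h
    have h2 := bound_small hGP k' le_rfl
    rw [hcard] at h2
    exact numeric h h2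
  have h1 := kline_le hP hε k
  have h2 : ({L | IsKLine P k L}.ncard : ℝ) ≤ #(kes (P.image (shr ε)) k) +
      #(kes (P.image (shr ε)) (#P - 2 - k)) := by exact_mod_cast h1
  have h3 := hb k (Or.inl rfl)
  have h4 := hb (#P - 2 - k) (Or.inr rfl)
  linarith

end Pool.Agent.K7.H30.HB
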