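import Pool.Agent.K7.H30.HB.Bands
import Pool.Agent.TH124.KE.Few
import Pool.Agent.Y429.HalvFew
import Pool.Agent.R117.KR.Lines

/-!
# Bands for nearly isotropic sets and for lines that meet a convex set
-/

set_option autoImplicit false

namespace Pool.Agent.K7.H30.HB

open Finset Pool.Agent.TH124.KE Pool.Agent.Y429.HalvFew
open Pool.Agent.W296.HL (cr Gen)
open Pool.Agent.R117.KR (IsKLine Line psi psi_div)

variable {P : Finset (ℝ × ℝ)} {k : ℕ}

/-! ### affine dependence on the slope -/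

lemma hh_aff (s t r : ℝ) (x : ℝ × ℝ) : (r - s) * hh t x = (r - t) * hh s x + (t - s) * hh r x := by
  unfold hh; ring

/-- the normal vector, in the coordinates given by `e` -/
noncomputable def vv (e : (ℝ × ℝ) ≃ₗ[ℝ] ℂ) (σ : ℝ) : ℂ := ⟨hh σ (e.symm 1), hh σ (e.symm Complex.I)⟩

lemma psi_vv (e : (ℝ × ℝ) ≃ₗ[ℝ] ℂ) (σ : ℝ) (x : ℝ × ℝ) : psi (vv e σ) (e x) = hh σ x := by
  have hz : e x = ((e x).re : ℝ) • (1 : ℂ) + ((e x).im : ℝ) • Complex.I := by
    apply Complex.ext <;> simp
  have h5 : x = (e x).re • e.symm 1 + (e x).im • e.symm Complex.I := by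
    conv_lhs => rw [← e.symm_apply_apply x, hz]
    rw [map_add, map_smul, map_smul]
  have h6 : hh σ x = (e x).re * hh σ (e.symm 1) + (e x).im * hh σ (e.symm Complex.I) := by
    conv_lhs => rw [h5]
    unfold hh
    simp only [Prod.fst_add, Prod.snd_add, Prod.smul_fst, Prod.smul_snd, smul_eq_mul]
    ring
  rw [h6]
  unfold psi vv
  simp [Complex.mul_re]

lemma vv_ne (e : (ℝ × ℝ) ≃ₗ[ℝ] ℂ) (σ : ℝ) : vv e σ ≠ 0 := by
  intro h
  have h1 := psi_vv e σ (0, 1)
  rw [h] at h1
  simp [psi, hh] at h1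

lemma vv_aff (e : (ℝ × ℝ) ≃ₗ[ℝ] ℂ) (s t r : ℝ) :
    ((r - s : ℝ) : ℂ) * vv e t = ((r - t : ℝ) : ℂ) * vv e s + ((t - s : ℝ) : ℂ) * vv e r := by
  apply Complex.ext
  · simp only [Complex.add_re, Complex.re_ofReal_mul]
    exact hh_aff s t r _
  · simp only [Complex.add_im, Complex.im_ofReal_mul]
    exact hh_aff s t r _

lemma vv_norm (e : (ℝ × ℝ) ≃ₗ[ℝ] ℂ) {s t r : ℝ} (h1 : s ≤ t) (h2 : t ≤ r) :
    (r - s) * ‖vv e t‖ ≤ (r - t) * ‖vv e s‖ + (t - s) * ‖vv e r‖ := by
  have h := congrArg norm (vv_aff e s t r)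
  rw [norm_mul, Complex.norm_real, Real.norm_of_nonneg (by linarith)] at h
  rw [h]
  refine (norm_add_le _ _).trans ?_
  rw [norm_mul, norm_mul, Complex.norm_real, Complex.norm_real, Real.norm_of_nonneg (by linarith),
    Real.norm_of_nonneg (by linarith)]

/-- the signed distance from the centre of the line of slope `σ` through `p` -/
noncomputable def dd (e : (ℝ × ℝ) ≃ₗ[ℝ] ℂ) (o p : ℝ × ℝ) (σ : ℝ) : ℝ :=
  hh σ (p - o) / ‖vv e σ‖

lemma dd_psi (e : (ℝ × ℝ) ≃ₗ[ℝ] ℂ) (o p : ℝ × ℝ) (σ : ℝ) :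
    psi (vv e σ / (‖vv e σ‖ : ℂ)) (e (p - o)) = dd e o p σ := by
  rw [psi_div, psi_vv]
  rfl

lemma dd_lt (e : (ℝ × ℝ) ≃ₗ[ℝ] ℂ) (o p q : ℝ × ℝ) (σ : ℝ) :
    dd e o p σ < dd e o q σ ↔ hh σ p < hh σ q := by
  have h0 : 0 < ‖vv e σ‖ := norm_pos_iff.mpr (vv_ne e σ)
  unfold dd
  rw [div_lt_div_iff_of_pos_right h0]
  unfold hh
  simp only [Prod.fst_sub, Prod.snd_sub]
  constructor <;> intro h <;> linarith

lemma dd_uni (e : (ℝ × ℝ) ≃ₗ[ℝ] ℂ) (o p : ℝ × ℝ) : Uni (dd e o p) := by
  intro s t r hst htr c hc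
  rcases (hst.trans htr).eq_or_lt with h | h
  · have h1 : t = s := le_antisymm (by rw [h]; exact htr) hst
    subst h1
    exact ⟨fun h2 _ => h2, fun h2 _ => h2⟩
  · have h0 : ∀ σ, 0 < ‖vv e σ‖ := fun σ => norm_pos_iff.mpr (vv_ne e σ)
    have h1 := vv_norm e hst htr
    have h2 := hh_aff s t r (p - o)
    have h3 : 0 < r - s := by linarith
    have h4 : 0 ≤ r - t := by linarith
    have h5 : 0 ≤ t - s := by linarith
    constructor
    · intro h6 h7
      unfold dd at h6 h7 ⊢
      rw [le_div_iff₀ (h0 _)] at h6 h7 ⊢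
      have h8 := mul_le_mul_of_nonneg_left h6 h4
      have h9 := mul_le_mul_of_nonneg_left h7 h5
      have h10 := mul_le_mul_of_nonneg_left h1 hc
      have h11 : (r - s) * (c * ‖vv e t‖) ≤ (r - s) * hh t (p - o) := by
        rw [h2]; linarith
      exact le_of_mul_le_mul_left h11 h3
    · intro h6 h7
      unfold dd at h6 h7 ⊢
      rw [div_le_iff₀ (h0 _)] at h6 h7 ⊢
      have h8 := mul_le_mul_of_nonneg_left h6 h4
      have h9 := mul_le_mul_of_nonneg_left h7 h5
      have h10 := mul_le_mul_of_nonneg_left h1 hc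
      have h11 : (r - s) * hh t (p - o) ≤ (r - s) * (-c * ‖vv e t‖) := by
        rw [h2]; linarith
      exact le_of_mul_le_mul_left h11 h3

/-! ### ranks -/

lemma fibre_le (hP : GP P) (σ c : ℝ) : #{p ∈ P | hh σ p = c} ≤ 2 := by
  by_contra hcon
  push Not at hcon
  obtain ⟨p, q, r, hp, hq, hr, hpq, hpr, hqr⟩ := Finset.two_lt_card_iff.mp hcon
  rw [mem_filter] at hp hq hr
  have h1 := (hh_eq (hP.ne1 hp.1 hq.1 hpq) σ).mp (hq.2.trans hp.2.symm)
  have h2 := (hh_eq (hP.ne1 hp.1 hr.1 hpr) σ).mp (hr.2.trans hp.2.symm)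
  exact hP.col p hp.1 q hq.1 r hr.1 hpq hpr hqr (h1.trans h2.symm)

lemma ply_rank (hP : GP P) (σ : ℝ) (κ E : ℕ) :
    #{p ∈ P | κ ≤ abv P σ p + E ∧ abv P σ p ≤ κ + E} ≤ 2 * E + 2 := by
  classical
  set W := {p ∈ P | κ ≤ abv P σ p + E ∧ abv P σ p ≤ κ + E} with hW
  rcases W.eq_empty_or_nonempty with h0 | h0
  · rw [h0]; simp
  · obtain ⟨a, ha, ha2⟩ := W.exists_min_image (hh σ) h0
    obtain ⟨b, hb, hb2⟩ := W.exists_max_image (hh σ) h0
    have hsub : W ⊆ {p ∈ P | hh σ p = hh σ a} ∪ {p ∈ W | hh σ a < hh σ p} := by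
      intro p hp
      rw [mem_union, mem_filter, mem_filter]
      rcases (ha2 p hp).eq_or_lt with h | h
      · left
        exact ⟨(mem_filter.mp hp).1, h.symm⟩
      · exact Or.inr ⟨hp, h⟩
    have h1 := (Finset.card_le_card hsub).trans (Finset.card_union_le _ _)
    have h2 := fibre_le hP σ (hh σ a)
    have h3 : #{p ∈ W | hh σ a < hh σ p} + #{r ∈ P | hh σ b < hh σ r} ≤
        #{r ∈ P | hh σ a < hh σ r} := by
      rw [← Finset.card_union_of_disjoint]
      · apply Finset.card_le_card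
        intro p hp
        rw [mem_union] at hp
        rw [mem_filter]
        rcases hp with hp | hp
        · have h6 := mem_filter.mp hp
          exact ⟨(mem_filter.mp h6.1).1, h6.2⟩
        · have h6 := mem_filter.mp hp
          exact ⟨h6.1, lt_of_le_of_lt (ha2 b hb) h6.2⟩
      · rw [Finset.disjoint_left]
        intro p hp hp'
        rw [mem_filter] at hp hp'
        exact absurd (hb2 p hp.1) (not_le.mpr hp'.2)
    have h4 : abv P σ a ≤ κ + E := (mem_filter.mp ha).2.2
    have h5 : κ ≤ abv P σ b + E := (mem_filter.mp hb).2.1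
    unfold abv at h4 h5
    omega

lemma abv_end (hP : GP P) {e : Seg} (he : e ∈ kes P k) {p : ℝ × ℝ} (hp : p = e.1 ∨ p = e.2) :
    abv P (ss e) p = #P - 2 - k := by
  have h := mem_kes.mp he
  have h1 := bel_abv hP h.1 h.2.1 h.2.2.1
  have h2 : bel P (sl e.1 e.2) e.1 = k := h.2.2.2
  have h3 : abv P (ss e) e.1 = #P - 2 - k := by
    unfold ss
    omega
  rcases hp with rfl | rfl
  · exact h3
  · rw [← h3]
    unfold abv
    have h4 : hh (ss e) e.2 = hh (ss e) e.1 := hh_sl h.2.2.1.ne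
    rw [h4]

open scoped Classical in
/-- the number of points beyond a line does not depend much on its direction but only on its
distance to the centre -/
def NearlyIsotropic (P : Finset (ℝ × ℝ)) (e : (ℝ × ℝ) ≃ₗ[ℝ] ℂ) (o : ℝ × ℝ) (D : ℕ) : Prop :=
  ∀ u u' : ℂ, ‖u‖ = 1 → ‖u'‖ = 1 → ∀ c : ℝ,
    #{p ∈ P | c < psi u (e (p - o))} ≤ #{p ∈ P | c < psi u' (e (p - o))} + D

/-- the bound for nearly isotropic sets -/
theorem iso_kes (hP : GP P) {e : (ℝ × ℝ) ≃ₗ[ℝ] ℂ} {o : ℝ × ℝ} {D : ℕ} (hI : NearlyIsotropic P e o D) (G : ℝ)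
    (hG : ∀ (Q : Finset (ℝ × ℝ)) (j : ℕ), GP Q → Q ⊆ P → #Q ≤ 2 * (4 * D + 2) →
      (#(kes Q j) : ℝ) ≤ G) :
    (#(kes P k) : ℝ) * ((4 * D + 2 : ℕ) + 1) ≤ (4 * #P + ((4 * D + 2 : ℕ) + 1)) * G := by
  classical
  set κ := #P - 2 - k with hκ
  set N : ℝ → ℝ → ℕ := fun σ c => #{q ∈ P | c < dd e o q σ} with hN
  have hclose : ∀ σ τ c, N σ c ≤ N τ c + D := by
    intro σ τ c
    have hu : ∀ σ, ‖vv e σ / (‖vv e σ‖ : ℂ)‖ = 1 := by
      intro σ
      have h0 : 0 < ‖vv e σ‖ := norm_pos_iff.mpr (vv_ne e σ)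
      rw [norm_div, Complex.norm_real, norm_norm, div_self h0.ne']
    have h := hI _ _ (hu σ) (hu τ) c
    simp only [dd_psi] at h
    simp only [hN]
    convert h using 2
  have hself : ∀ σ p, N σ (dd e o p σ) = abv P σ p := by
    intro σ p
    simp only [hN, dd_lt]
    rfl
  have hanti : ∀ σ x y, x ≤ y → N σ y ≤ N σ x := by
    intro σ x y hxy
    apply Finset.card_le_card
    intro q hq
    rw [mem_filter] at hq ⊢
    exact ⟨hq.1, lt_of_le_of_lt hxy hq.2⟩
  refine bands hP (fun p => {σ | dd e o p σ ∈ {c | N 0 c ≤ κ + D}})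
    (fun p => {σ | dd e o p σ ∈ {c | κ ≤ N 0 c + D}})
    (fun p => (dd_uni e o p).good_up ?_) (fun p => (dd_uni e o p).good_dn ?_) ?_ _ ?_ G hG
  · intro x y hxy hx
    exact (hanti 0 x y hxy).trans hx
  · intro x y hxy hy
    have h1 := hanti 0 x y hxy
    have h2 : κ ≤ N 0 y + D := hy
    show κ ≤ N 0 x + D
    omega
  · intro f hf p hp
    have h1 := abv_end hP hf hp
    rw [← hself] at h1
    have h2 := hclose (ss f) 0 (dd e o p (ss f))
    have h3 := hclose 0 (ss f) (dd e o p (ss f))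
    constructor
    · show N 0 (dd e o p (ss f)) ≤ κ + D
      omega
    · show κ ≤ N 0 (dd e o p (ss f)) + D
      omega
  · intro σ
    refine le_trans ?_ (le_trans (ply_rank hP σ κ (2 * D)) (by omega))
    rw [← Set.ncard_coe_finset]
    refine Set.ncard_le_ncard ?_ (Finset.finite_toSet _)
    intro p hp
    rw [mem_coe, mem_filter]
    have h1 : N 0 (dd e o p σ) ≤ κ + D := hp.2.1
    have h2 : κ ≤ N 0 (dd e o p σ) + D := hp.2.2
    have h3 := hclose σ 0 (dd e o p σ)
    have h4 := hclose 0 σ (dd e o p σ)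
    rw [hself] at h3 h4
    exact ⟨hp.1, by omega, by omega⟩

open scoped Classical in
/-- the bound for lines that meet a convex set -/
theorem conv_kes (hP : GP P) {K : Set (ℝ × ℝ)} (hK : Convex ℝ K) {V : ℕ}
    (hmeet : ∀ f ∈ kes P k, ∃ x ∈ K, hh (ss f) x = hh (ss f) f.1)
    (hV : ∀ σ, #{p ∈ P | ∃ x ∈ K, hh σ x = hh σ p} ≤ V) (G : ℝ)
    (hG : ∀ (Q : Finset (ℝ × ℝ)) (j : ℕ), GP Q → Q ⊆ P → #Q ≤ 2 * V → (#(kes Q j) : ℝ) ≤ G) :
    (#(kes P k) : ℝ) * (V + 1) ≤ (4 * #P + (V + 1)) * G := by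
  refine bands hP (fun p => {σ | ∃ x ∈ K, hh σ p ≤ hh σ x})
    (fun p => {σ | ∃ x ∈ K, hh σ x ≤ hh σ p}) (fun p => Or.inr ?_) (fun p => Or.inr ?_) ?_ V ?_
    G hG
  · constructor
    intro s hs r hr t ht
    simp only [Set.mem_compl_iff, Set.mem_ofPred_eq, not_exists, not_and, not_le] at hs hr ⊢
    intro x hx
    have h1 := hs x hx
    have h2 := hr x hx
    rcases (ht.1.trans ht.2).eq_or_lt with h | h
    · have h3 : t = s := le_antisymm (by rw [h]; exact ht.2) ht.1
      rw [h3]; exact h1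
    · have h3 := hh_aff s t r x
      have h4 := hh_aff s t r p
      have h5 : 0 < r - s := by linarith
      have h6 : 0 ≤ r - t := by linarith [ht.2]
      have h7 : 0 ≤ t - s := by linarith [ht.1]
      have h8 : (r - s) * hh t x < (r - s) * hh t p := by
        rw [h3, h4]
        rcases h6.eq_or_lt with h9 | h9
        · have : t - s = r - s := by linarith
          rw [← h9, this]
          nlinarith
        · have h10 := mul_lt_mul_of_pos_left h1 h9
          have h11 := mul_le_mul_of_nonneg_left h2.le h7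
          linarith
      exact lt_of_mul_lt_mul_left h8 h5.le
  · constructor
    intro s hs r hr t ht
    simp only [Set.mem_compl_iff, Set.mem_ofPred_eq, not_exists, not_and, not_le] at hs hr ⊢
    intro x hx
    have h1 := hs x hx
    have h2 := hr x hx
    rcases (ht.1.trans ht.2).eq_or_lt with h | h
    · have h3 : t = s := le_antisymm (by rw [h]; exact ht.2) ht.1
      rw [h3]; exact h1
    · have h3 := hh_aff s t r x
      have h4 := hh_aff s t r p
      have h5 : 0 < r - s := by linarith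
      have h6 : 0 ≤ r - t := by linarith [ht.2]
      have h7 : 0 ≤ t - s := by linarith [ht.1]
      have h8 : (r - s) * hh t p < (r - s) * hh t x := by
        rw [h3, h4]
        rcases h6.eq_or_lt with h9 | h9
        · have : t - s = r - s := by linarith
          rw [← h9, this]
          nlinarith
        · have h10 := mul_lt_mul_of_pos_left h1 h9
          have h11 := mul_le_mul_of_nonneg_left h2.le h7
          linarith
      exact lt_of_mul_lt_mul_left h8 h5.le
  · intro f hf p hp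
    obtain ⟨x, hx, h1⟩ := hmeet f hf
    have h2 : hh (ss f) p = hh (ss f) f.1 := by
      rcases hp with rfl | rfl
      · rfl
      · exact hh_sl (mem_kes.mp hf).2.2.1.ne
    exact ⟨⟨x, hx, by rw [h1, h2]⟩, ⟨x, hx, by rw [h1, h2]⟩⟩
  · intro σ
    refine le_trans ?_ (hV σ)
    rw [← Set.ncard_coe_finset]
    refine Set.ncard_le_ncard ?_ (Finset.finite_toSet _)
    intro p hp
    rw [mem_coe, mem_filter]
    refine ⟨hp.1, ?_⟩
    obtain ⟨-, ⟨x, hx, h1⟩, ⟨y, hy, h2⟩⟩ := hp
    rcases (h2.trans h1).eq_or_lt with h | h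
    · exact ⟨x, hx, le_antisymm (by rw [← h]; exact h2) h1⟩
    · set lam := (hh σ p - hh σ y) / (hh σ x - hh σ y) with hlam
      have h3 : 0 < hh σ x - hh σ y := by linarith
      have h4 : 0 ≤ lam := div_nonneg (by linarith) h3.le
      have h5 : lam ≤ 1 := by rw [hlam, div_le_one h3]; linarith
      refine ⟨(1 - lam) • y + lam • x, hK hy hx (by linarith) h4 (by ring), ?_⟩
      have h6 : hh σ ((1 - lam) • y + lam • x) = hh σ y + lam * (hh σ x - hh σ y) := by
        unfold hh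
        simp only [Prod.fst_add, Prod.snd_add, Prod.smul_fst, Prod.smul_snd, smul_eq_mul]
        ring
      rw [h6, hlam, div_mul_cancel₀ _ h3.ne']
      ring

/-! ### from lines to edges -/

lemma line_cr {a b c : ℝ} (hab : a ≠ 0 ∨ b ≠ 0) {p q : ℝ × ℝ} (hpq : p ≠ q)
    (hp : p ∈ Line a b c) (hq : q ∈ Line a b c) :
    ∃ lam : ℝ, lam ≠ 0 ∧ ∀ x : ℝ × ℝ, a * x.1 + b * x.2 - c = lam * cr p q x := by
  have hpL : a * p.1 + b * p.2 = c := hp
  have hqL : a * q.1 + b * q.2 = c := hq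
  set d1 := q.1 - p.1 with hd1
  set d2 := q.2 - p.2 with hd2
  have hd : a * d1 + b * d2 = 0 := by rw [hd1, hd2]; linarith
  have hN : 0 < d1 ^ 2 + d2 ^ 2 := by
    by_contra h
    have h3 : d1 = 0 := by nlinarith [sq_nonneg d1, sq_nonneg d2]
    have h4 : d2 = 0 := by nlinarith [sq_nonneg d1, sq_nonneg d2]
    apply hpq
    exact Prod.ext (by linarith) (by linarith)
  set lam := (b * d1 - a * d2) / (d1 ^ 2 + d2 ^ 2) with hlam
  have hl : lam * (d1 ^ 2 + d2 ^ 2) = b * d1 - a * d2 := by rw [hlam]; field_simp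
  have hb : b = lam * d1 := by
    have : (b - lam * d1) * (d1 ^ 2 + d2 ^ 2) = 0 := by
      linear_combination (-d1) * hl + d2 * hd
    have := (mul_eq_zero.mp this).resolve_right hN.ne'
    linarith
  have ha : a = - (lam * d2) := by
    have : (a + lam * d2) * (d1 ^ 2 + d2 ^ 2) = 0 := by
      linear_combination d2 * hl + d1 * hd
    have := (mul_eq_zero.mp this).resolve_right hN.ne'
    linarith
  have hlam0 : lam ≠ 0 := by
    intro h0
    rw [h0] at ha hb
    rcases hab with h | h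
    · apply h; rw [ha]; ring
    · apply h; rw [hb]; ring
  refine ⟨lam, hlam0, fun x => ?_⟩
  have : c = a * p.1 + b * p.2 := hpL.symm
  rw [this, ha, hb]
  unfold cr
  rw [← hd1, ← hd2]; ring

/-- above a line in terms of the cross product -/
lemma above_iff {p q : ℝ × ℝ} (h : p.1 < q.1) (r : ℝ × ℝ) :
    hh (sl p q) p < hh (sl p q) r ↔ 0 < cr p q r := by
  have h0 : 0 < q.1 - p.1 := by linarith
  have h1 : sl p q * (q.1 - p.1) = q.2 - p.2 := by
    unfold sl; field_simp
  have h2 : (q.1 - p.1) * (hh (sl p q) r - hh (sl p q) p) = cr p q r := by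
    unfold hh cr
    linear_combination (-(r.1 - p.1)) * h1
  constructor
  · intro h3
    nlinarith
  · intro h3
    by_contra h4
    push Not at h4
    nlinarith

open scoped Classical in
/-- a `k`-line is spanned by an edge of the sheared set -/
lemma edge_of_kline (hP : Gen P) {ε : ℝ}
    (hε : ∀ x ∈ P, ∀ y ∈ P, (shr ε x).1 = (shr ε y).1 → x = y) {L : Set (ℝ × ℝ)}
    (hL : IsKLine P k L) : ∃ p ∈ P, ∃ q ∈ P, L = {x | cr p q x = 0} ∧
      (shr ε p).1 < (shr ε q).1 ∧ ((shr ε p, shr ε q) ∈ kes (P.image (shr ε)) k ∨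
        (shr ε p, shr ε q) ∈ kes (P.image (shr ε)) (#P - 2 - k)) := by
  have hP' := gp_shear hP hε
  obtain ⟨a, b, c, hab, rfl, ⟨p, hp, q, hq, hpq, hpL, hqL⟩, hk⟩ := hL
  wlog hlt : (shr ε p).1 < (shr ε q).1 generalizing p q
  · have hne : (shr ε p).1 ≠ (shr ε q).1 := fun h => hpq (hε p hp q hq h)
    exact this q hq p hp hpq.symm hqL hpL (lt_of_le_of_ne (not_lt.mp hlt) hne.symm)
  obtain ⟨lam, hlam0, hlam⟩ := line_cr hab hpq hpL hqL
  refine ⟨p, hp, q, hq, ?_, hlt, ?_⟩
  · ext x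
    have h := hlam x
    show a * x.1 + b * x.2 = c ↔ cr p q x = 0
    constructor
    · intro h1
      have h2 : lam * cr p q x = 0 := by linarith
      exact (mul_eq_zero.mp h2).resolve_left hlam0
    · intro h1
      rw [h1, mul_zero] at h
      linarith
  · have hp' : shr ε p ∈ P.image (shr ε) := mem_image_of_mem _ hp
    have hq' : shr ε q ∈ P.image (shr ε) := mem_image_of_mem _ hq
    have hcard : #(P.image (shr ε)) = #P := Finset.card_image_of_injective _ (shr_inj ε)
    rcases lt_or_gt_of_ne hlam0 with hl | hl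
    · left
      rw [mem_kes]
      refine ⟨hp', hq', hlt, ?_⟩
      rw [← hk]
      unfold bel
      rw [Finset.filter_image, Finset.card_image_of_injective _ (shr_inj ε)]
      congr 1
      apply Finset.filter_congr
      intro x _
      rw [below_iff hlt, cr_shr]
      have h := hlam x
      constructor
      · intro h1
        have := mul_pos_of_neg_of_neg hl h1
        linarith
      · intro h1
        by_contra h2
        have := mul_nonpos_of_nonpos_of_nonneg hl.le (not_lt.mp h2)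
        linarith
    · right
      rw [mem_kes]
      refine ⟨hp', hq', hlt, ?_⟩
      have h3 := bel_abv hP' hp' hq' hlt
      have h4 : abv (P.image (shr ε)) (sl (shr ε p) (shr ε q)) (shr ε p) = k := by
        rw [← hk]
        unfold abv
        rw [Finset.filter_image, Finset.card_image_of_injective _ (shr_inj ε)]
        congr 1
        apply Finset.filter_congr
        intro x _
        rw [above_iff hlt, cr_shr]
        have h := hlam x
        constructor
        · intro h1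
          have := mul_pos hl h1
          linarith
        · intro h1
          by_contra h2
          have := mul_nonpos_of_nonneg_of_nonpos hl.le (not_lt.mp h2)
          linarith
      rw [hcard, h4] at h3
      show bel (P.image (shr ε)) (sl (shr ε p) (shr ε q)) (shr ε p) = #P - 2 - k
      omega

open scoped Classical in
lemma kline_le (hP : Gen P) {ε : ℝ}
    (hε : ∀ x ∈ P, ∀ y ∈ P, (shr ε x).1 = (shr ε y).1 → x = y) (k : ℕ) :
    {L | IsKLine P k L}.ncard ≤ #(kes (P.image (shr ε)) k) +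
      #(kes (P.image (shr ε)) (#P - 2 - k)) := by
  have hex : ∀ L : Set (ℝ × ℝ), ∃ z : (ℝ × ℝ) × (ℝ × ℝ), IsKLine P k L →
      L = {x | cr z.1 z.2 x = 0} ∧ ((shr ε z.1, shr ε z.2) ∈ kes (P.image (shr ε)) k ∨
        (shr ε z.1, shr ε z.2) ∈ kes (P.image (shr ε)) (#P - 2 - k)) := by
    intro L
    by_cases hL : IsKLine P k L
    · obtain ⟨p, -, q, -, h1, -, h2⟩ := edge_of_kline hP hε hL
      exact ⟨(p, q), fun _ => ⟨h1, h2⟩⟩
    · exact ⟨((0, 0), (0, 0)), fun h => absurd h hL⟩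
  choose z hz using hex
  refine le_trans ?_ (Finset.card_union_le _ _)
  rw [← Set.ncard_coe_finset]
  refine Set.ncard_le_ncard_of_injOn (fun L => (shr ε (z L).1, shr ε (z L).2)) ?_ ?_
    (Finset.finite_toSet _)
  · intro L hL
    rw [mem_coe, mem_union]
    exact (hz L hL).2
  · intro L hL L' hL' h
    simp only [Prod.mk.injEq] at h
    rw [(hz L hL).1, (hz L' hL').1, shr_inj ε h.1, shr_inj ε h.2]

open scoped Classical in
/-- the edges of the sheared set give lines of the set -/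
lemma le_kline {Q : Finset (ℝ × ℝ)} {ε : ℝ} (hQ : GP (Q.image (shr ε))) (j : ℕ) :
    #(kes (Q.image (shr ε)) j) ≤ {L | IsKLine Q j L}.ncard := by
  have hsh : ∀ y : ℝ × ℝ, shr ε (shr (-ε) y) = y := by
    intro y; unfold shr; ext <;> simp
  rw [← Set.ncard_coe_finset]
  refine Set.ncard_le_ncard_of_injOn
    (fun f => {x : ℝ × ℝ | hh (ss f) (shr ε x) = hh (ss f) f.1}) ?_ ?_
    (Pool.Agent.R117.KR.kline_finite Q j)
  · intro f hf
    rw [mem_coe, mem_kes] at hf
    obtain ⟨h1, h2, h3, h4⟩ := hf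
    obtain ⟨p, hp, hp1⟩ := mem_image.mp h1
    obtain ⟨q, hq, hq1⟩ := mem_image.mp h2
    have hpq : p ≠ q := by
      rintro rfl
      rw [← hp1, ← hq1] at h3
      exact lt_irrefl _ h3
    refine ⟨ss f, ss f * ε - 1, - hh (ss f) f.1, ?_, ?_, ⟨p, hp, q, hq, hpq, ?_, ?_⟩, ?_⟩
    · by_contra hcon
      push Not at hcon
      rw [hcon.1] at hcon
      linarith [hcon.2]
    · ext x
      simp only [Set.mem_ofPred_eq, Line]
      unfold hh shr
      constructor <;> intro h <;> linarith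
    · show hh (ss f) (shr ε p) = hh (ss f) f.1
      rw [hp1]
    · show hh (ss f) (shr ε q) = hh (ss f) f.1
      rw [hq1]
      exact hh_sl h3.ne
    · rw [← h4]
      unfold bel
      rw [Finset.filter_image, Finset.card_image_of_injective _ (shr_inj ε)]
      congr 1
      apply Finset.filter_congr
      intro x _
      unfold ss hh shr
      simp only
      constructor <;> intro h <;> linarith
  · intro f hf g hg h
    rw [mem_coe, mem_kes] at hf hg
    simp only at h
    have key : ∀ {f g : Seg}, KE (Q.image (shr ε)) j f.1 f.2 → KE (Q.image (shr ε)) j g.1 g.2 →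
        {x : ℝ × ℝ | hh (ss f) (shr ε x) = hh (ss f) f.1} =
          {x : ℝ × ℝ | hh (ss g) (shr ε x) = hh (ss g) g.1} → g.1 = f.1 ∨ g.1 = f.2 := by
      intro f g hf hg h
      have h1 : shr (-ε) g.1 ∈ {x : ℝ × ℝ | hh (ss f) (shr ε x) = hh (ss f) f.1} := by
        rw [h]
        show hh (ss g) (shr ε (shr (-ε) g.1)) = hh (ss g) g.1
        rw [hsh]
      have h2 : hh (ss f) g.1 = hh (ss f) f.1 := by
        have : hh (ss f) (shr ε (shr (-ε) g.1)) = hh (ss f) f.1 := h1
        rwa [hsh] at this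
      by_contra hcon
      push Not at hcon
      exact not_on hQ hf hg.1 hcon.1 hcon.2 h2
    have key2 : ∀ {f g : Seg}, KE (Q.image (shr ε)) j f.1 f.2 → KE (Q.image (shr ε)) j g.1 g.2 →
        {x : ℝ × ℝ | hh (ss f) (shr ε x) = hh (ss f) f.1} =
          {x : ℝ × ℝ | hh (ss g) (shr ε x) = hh (ss g) g.1} → g.2 = f.1 ∨ g.2 = f.2 := by
      intro f g hf hg h
      have h1 : shr (-ε) g.2 ∈ {x : ℝ × ℝ | hh (ss f) (shr ε x) = hh (ss f) f.1} := by
        rw [h]
        show hh (ss g) (shr ε (shr (-ε) g.2)) = hh (ss g) g.1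
        rw [hsh]
        exact hh_sl hg.2.2.1.ne
      have h2 : hh (ss f) g.2 = hh (ss f) f.1 := by
        have : hh (ss f) (shr ε (shr (-ε) g.2)) = hh (ss f) f.1 := h1
        rwa [hsh] at this
      by_contra hcon
      push Not at hcon
      exact not_on hQ hf hg.2.1 hcon.1 hcon.2 h2
    have hf3 := hf.2.2.1
    have hg3 := hg.2.2.1
    rcases key hf hg h with h1 | h1 <;> rcases key2 hf hg h with h2 | h2
    · rw [h1, h2] at hg3
      exact absurd hg3 (lt_irrefl _)
    · exact Prod.ext h1.symm h2.symm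
    · rw [h1, h2] at hg3
      exact absurd hg3 (not_lt.mpr hf3.le)
    · rw [h1, h2] at hg3
      exact absurd hg3 (lt_irrefl _)

end Pool.Agent.K7.H30.HB
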