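import Pool.Agent.K7.H30.HB.Block

/-!
# Bands

The bound for the number of `k`-edges when the set of the slopes at which a point can be an
endpoint is an intersection of two sets, each order-connected or the complement of an
order-connected set, and every slope belongs to the sets of at most `V` points.
-/

set_option autoImplicit false

namespace Pool.Agent.K7.H30.HB

open Finset Pool.Agent.TH124.KE

/-- `A` or its complement is order-connected -/
def Good (A : Set ℝ) : Prop := A.OrdConnected ∨ (Aᶜ).OrdConnected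

lemma Good.compl {A : Set ℝ} (h : Good A) : Good Aᶜ := by
  rcases h with h | h
  · exact Or.inr (by rwa [compl_compl])
  · exact Or.inl h

lemma Good.split {A : Set ℝ} (h : Good A) : ∃ B : Bool → Set ℝ, (∀ i, (B i).OrdConnected) ∧
    (∀ x, x ∈ A ↔ ∃ i, x ∈ B i) ∧ ∀ x i j, x ∈ B i → x ∈ B j → i = j := by
  rcases h with h | h
  · refine ⟨fun i => if i then A else ∅, ?_, ?_, ?_⟩
    · intro i
      cases i
      · simp [Set.ordConnected_empty]
      · simpa using h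
    · intro x
      constructor
      · intro hx
        exact ⟨true, by simpa using hx⟩
      · rintro ⟨i, hi⟩
        cases i
        · simp at hi
        · simpa using hi
    · intro x i j hi hj
      cases i <;> cases j <;> simp_all
  · refine ⟨fun i => if i then {x | x ∉ Aᶜ ∧ ∀ y ∈ Aᶜ, x < y} else
      {x | x ∉ Aᶜ ∧ ∃ y ∈ Aᶜ, y < x}, ?_, ?_, ?_⟩
    · intro i
      cases i
      · simp only [Bool.false_eq_true, if_false]
        constructor
        rintro x ⟨hx, y, hy, hyx⟩ x' ⟨hx', -⟩ z ⟨hz1, hz2⟩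
        refine ⟨?_, y, hy, lt_of_lt_of_le hyx hz1⟩
        intro hz
        exact hx (h.out hy hz ⟨hyx.le, hz1⟩)
      · simp only [if_true]
        constructor
        rintro x ⟨hx, -⟩ x' ⟨hx', h2⟩ z ⟨hz1, hz2⟩
        refine ⟨?_, fun y hy => lt_of_le_of_lt hz2 (h2 y hy)⟩
        intro hz
        exact absurd (h2 z hz) (not_lt.mpr hz2)
    · intro x
      have hx : x ∈ A ↔ x ∉ Aᶜ := by simp
      constructor
      · intro h1
        rw [hx] at h1
        by_cases h2 : ∃ y ∈ Aᶜ, y < x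
        · exact ⟨false, by simp only [Bool.false_eq_true, if_false]; exact ⟨h1, h2⟩⟩
        · push Not at h2
          refine ⟨true, ?_⟩
          simp only [if_true]
          refine ⟨h1, fun y hy => lt_of_le_of_ne (h2 y hy) ?_⟩
          rintro rfl
          exact h1 hy
      · rintro ⟨i, hi⟩
        rw [hx]
        cases i
        · simp only [Bool.false_eq_true, if_false] at hi
          exact hi.1
        · simp only [if_true] at hi
          exact hi.1
    · intro x i j hi hj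
      cases i <;> cases j
      · rfl
      · simp only [Bool.false_eq_true, if_false, if_true] at hi hj
        obtain ⟨y, hy, hyx⟩ := hi.2
        exact absurd (hj.2 y hy) (not_lt.mpr hyx.le)
      · simp only [Bool.false_eq_true, if_false, if_true] at hi hj
        obtain ⟨y, hy, hyx⟩ := hj.2
        exact absurd (hi.2 y hy) (not_lt.mpr hyx.le)
      · rfl

/-- a function whose superlevel and sublevel sets at nonnegative resp. nonpositive levels are
order-connected -/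
def Uni (d : ℝ → ℝ) : Prop :=
  ∀ s t r : ℝ, s ≤ t → t ≤ r → ∀ c, 0 ≤ c →
    (c ≤ d s → c ≤ d r → c ≤ d t) ∧ (d s ≤ -c → d r ≤ -c → d t ≤ -c)

lemma Uni.good_up {d : ℝ → ℝ} (hd : Uni d) {U : Set ℝ} (hU : ∀ x y, x ≤ y → x ∈ U → y ∈ U) :
    Good {σ | d σ ∈ U} := by
  by_cases h : ∀ c ∈ U, 0 ≤ c
  · left
    constructor
    intro s hs r hr t ht
    rcases le_total (d s) (d r) with h1 | h1
    · exact hU _ _ ((hd s t r ht.1 ht.2 (d s) (h _ hs)).1 le_rfl h1) hs
    · exact hU _ _ ((hd s t r ht.1 ht.2 (d r) (h _ hr)).1 h1 le_rfl) hr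
  · right
    push Not at h
    obtain ⟨c, hc, hc0⟩ := h
    constructor
    intro s hs r hr t ht
    have hs' : d s ∉ U := hs
    have hr' : d r ∉ U := hr
    have h1 : d s < c := by
      by_contra h2
      exact hs' (hU _ _ (not_lt.mp h2) hc)
    have h2 : d r < c := by
      by_contra h2
      exact hr' (hU _ _ (not_lt.mp h2) hc)
    show d t ∉ U
    intro h3
    rcases le_total (d s) (d r) with h4 | h4
    · have h5 := (hd s t r ht.1 ht.2 (- d r) (by linarith)).2 (by linarith) (by linarith)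
      exact hr' (hU _ _ (by linarith) h3)
    · have h5 := (hd s t r ht.1 ht.2 (- d s) (by linarith)).2 (by linarith) (by linarith)
      exact hs' (hU _ _ (by linarith) h3)

lemma Uni.good_dn {d : ℝ → ℝ} (hd : Uni d) {L : Set ℝ} (hL : ∀ x y, x ≤ y → y ∈ L → x ∈ L) :
    Good {σ | d σ ∈ L} := by
  have h := (hd.good_up (U := Lᶜ) (fun x y hxy hx hy => hx (hL x y hxy hy))).compl
  have e : {σ | d σ ∈ Lᶜ}ᶜ = {σ | d σ ∈ L} := by
    ext σ
    simp
  rwa [e] at h

variable {P : Finset (ℝ × ℝ)} {k : ℕ}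

open scoped Classical in
/-- the main bound -/
theorem bands (hP : GP P) (A B : ℝ × ℝ → Set ℝ) (hA : ∀ p, Good (A p)) (hB : ∀ p, Good (B p))
    (hcov : ∀ e ∈ kes P k, ∀ p, (p = e.1 ∨ p = e.2) → ss e ∈ A p ∧ ss e ∈ B p) (V : ℕ)
    (hply : ∀ σ : ℝ, {p | p ∈ P ∧ σ ∈ A p ∧ σ ∈ B p}.ncard ≤ V) (G : ℝ)
    (hG : ∀ (Q : Finset (ℝ × ℝ)) (j : ℕ), GP Q → Q ⊆ P → #Q ≤ 2 * V → (#(kes Q j) : ℝ) ≤ G) :
    (#(kes P k) : ℝ) * (V + 1) ≤ (4 * #P + (V + 1)) * G := by
  choose SA hA1 hA2 hA3 using fun p => (hA p).split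
  choose SB hB1 hB2 hB3 using fun p => (hB p).split
  have h := greedy (k := k) hP (κ := (ℝ × ℝ) × (Bool × Bool)) (P ×ˢ Finset.univ) (fun i => i.1)
    (fun i => SA i.1 i.2.1 ∩ SB i.1 i.2.2)
    (fun i _ => (hA1 i.1 i.2.1).inter (hB1 i.1 i.2.2)) V ?_ ?_ G hG
  · have h2 : ((#(P ×ˢ (Finset.univ : Finset (Bool × Bool))) : ℕ) : ℝ) = 4 * #P := by
      rw [Finset.card_product]
      simp
      ring
    rw [h2] at h
    exact h
  · intro e he p hp
    obtain ⟨h1, h2⟩ := hcov e he p hp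
    rw [hA2] at h1
    rw [hB2] at h2
    obtain ⟨i, hi⟩ := h1
    obtain ⟨j, hj⟩ := h2
    have hpP : p ∈ P := by
      rcases hp with rfl | rfl
      · exact (mem_kes.mp he).1
      · exact (mem_kes.mp he).2.1
    exact ⟨(p, (i, j)), mem_product.mpr ⟨hpP, mem_univ _⟩, rfl, hi, hj⟩
  · intro σ
    refine le_trans ?_ (hply σ)
    refine Set.ncard_le_ncard_of_injOn (fun i => i.1) ?_ ?_
      (P.finite_toSet.subset fun p hp => mem_coe.mpr hp.1)
    · rintro ⟨p, i, j⟩ ⟨h1, h2, h3⟩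
      exact ⟨(mem_product.mp h1).1, (hA2 p σ).mpr ⟨i, h2⟩, (hB2 p σ).mpr ⟨j, h3⟩⟩
    · rintro ⟨p, i, j⟩ ⟨h1, h2, h3⟩ ⟨p', i', j'⟩ ⟨h1', h2', h3'⟩ hpp
      simp only at hpp
      subst hpp
      rw [hA3 p σ i i' h2 h2', hB3 p σ j j' h3 h3']

lemma bound_small {Q : Finset (ℝ × ℝ)} (hQ : GP Q) (j : ℕ) {v : ℝ} (hv : (#Q : ℝ) ≤ v) :
    (#(kes Q j) : ℝ) ≤ 7 * v ^ (4 / 3 : ℝ) := by
  classical
  have h := kes_bound (k := j) hQ (c := 0) (fun i => i.elim0) (fun i => i.elim0)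
  have hempty : (Finset.univ : Finset (Fin 0)).biUnion
      (fun i : Fin 0 => (i.elim0 : Finset (ℝ × ℝ))) = ∅ := by
    simp
  have h0 : (0 : ℝ) ≤ #Q := Nat.cast_nonneg _
  rw [show (Q \ (Finset.univ : Finset (Fin 0)).biUnion
      (fun i : Fin 0 => (i.elim0 : Finset (ℝ × ℝ)))) = Q by rw [hempty, sdiff_empty]] at h
  have h2 : ((#Q : ℝ) * #Q) ^ (2 / 3 : ℝ) ≤ v ^ (4 / 3 : ℝ) := by
    have h3 : ((#Q : ℝ) * #Q) ≤ v ^ (2 : ℝ) := by
      rw [Real.rpow_two]
      nlinarith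
    calc ((#Q : ℝ) * #Q) ^ (2 / 3 : ℝ) ≤ (v ^ (2 : ℝ)) ^ (2 / 3 : ℝ) :=
          Real.rpow_le_rpow (by positivity) h3 (by norm_num)
      _ = v ^ (4 / 3 : ℝ) := by
          rw [← Real.rpow_mul (h0.trans hv)]
          norm_num
  push_cast at h
  linarith

/-- the numerical bound, from Dey's bound for the small sets -/
lemma numeric {n V N : ℕ} (h : (N : ℝ) * (V + 1) ≤ (4 * n + (V + 1)) *
    (7 * (2 * V : ℝ) ^ (4 / 3 : ℝ))) (h2 : (N : ℝ) ≤ 7 * (n : ℝ) ^ (4 / 3 : ℝ)) :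
    (N : ℝ) ≤ 89 * n * (V : ℝ) ^ (1 / 3 : ℝ) := by
  have hV0 : (0 : ℝ) ≤ V := Nat.cast_nonneg _
  have hn0 : (0 : ℝ) ≤ n := Nat.cast_nonneg _
  have h43 : ∀ x : ℝ, 0 ≤ x → x ^ (4 / 3 : ℝ) = x * x ^ (1 / 3 : ℝ) := by
    intro x hx
    rcases hx.eq_or_lt with h0 | h0
    · rw [← h0]
      rw [Real.zero_rpow (by norm_num)]
      simp
    · rw [show (4 / 3 : ℝ) = 1 + 1 / 3 by norm_num, Real.rpow_add h0, Real.rpow_one]
  rcases le_total V n with hVn | hVn
  · have hVn' : (V : ℝ) ≤ n := by exact_mod_cast hVn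
    set w := (V : ℝ) ^ (1 / 3 : ℝ) with hw
    have hw0 : 0 ≤ w := Real.rpow_nonneg hV0 _
    have e1 : (2 * V : ℝ) ^ (4 / 3 : ℝ) = (2 : ℝ) ^ (4 / 3 : ℝ) * (V * w) := by
      rw [Real.mul_rpow (by norm_num) hV0, h43 V hV0]
    have e2 : (2 : ℝ) ^ (4 / 3 : ℝ) ≤ 2.52 := by
      have h3 : (2 : ℝ) ^ (4 / 3 : ℝ) = (16 : ℝ) ^ (1 / 3 : ℝ) := by
        rw [show (16 : ℝ) = (2 : ℝ) ^ (4 : ℝ) by norm_num, ← Real.rpow_mul (by norm_num)]
        norm_num
      rw [h3]
      have h4 : (16 : ℝ) ^ (1 / 3 : ℝ) ≤ ((2.52 : ℝ) ^ (3 : ℝ)) ^ (1 / 3 : ℝ) :=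
        Real.rpow_le_rpow (by norm_num) (by norm_num) (by norm_num)
      rw [← Real.rpow_mul (by norm_num)] at h4
      norm_num at h4 ⊢
      exact h4
    rw [e1] at h
    have h5 : (2 : ℝ) ^ (4 / 3 : ℝ) * (V * w) ≤ 2.52 * (V * w) :=
      mul_le_mul_of_nonneg_right e2 (by positivity)
    have h6 : (N : ℝ) * (V + 1) ≤ (4 * n + (V + 1)) * (7 * (2.52 * (V * w))) :=
      h.trans (mul_le_mul_of_nonneg_left (by linarith) (by positivity))
    -- the right-hand side is at most `(V + 1) * 88.2 * n * w`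
    have h7 : (4 * n + (V + 1)) * (7 * (2.52 * (V * w))) ≤ (89 * n * w) * (V + 1) := by
      have h8 : (V : ℝ) * (V * w) ≤ n * (V * w) :=
        mul_le_mul_of_nonneg_right hVn' (by positivity)
      have h9 : (V : ℝ) * w ≤ n * w := mul_le_mul_of_nonneg_right hVn' hw0
      have h10 : 0 ≤ (n : ℝ) * (V * w) := by positivity
      have h11 : 0 ≤ (n : ℝ) * w := by positivity
      nlinarith
    exact le_of_mul_le_mul_right (h6.trans h7) (by positivity)
  · have hVn' : (n : ℝ) ≤ V := by exact_mod_cast hVn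
    have h3 : (n : ℝ) ^ (1 / 3 : ℝ) ≤ (V : ℝ) ^ (1 / 3 : ℝ) :=
      Real.rpow_le_rpow hn0 hVn' (by norm_num)
    rw [h43 n hn0] at h2
    have h4 : (n : ℝ) * (n : ℝ) ^ (1 / 3 : ℝ) ≤ n * (V : ℝ) ^ (1 / 3 : ℝ) :=
      mul_le_mul_of_nonneg_left h3 hn0
    have h5 : 0 ≤ (n : ℝ) * (V : ℝ) ^ (1 / 3 : ℝ) := by positivity
    nlinarith

end Pool.Agent.K7.H30.HB
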