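import Pool.Agent.TH124.KE.Total

/-!
# Localized Dey bound

Consecutive `k`-edges (in the order of their slopes) are `j`-edges of the set of their endpoints.
-/

set_option autoImplicit false
set_option linter.unusedSectionVars false

namespace Pool.Agent.K7.H30.HB

open Finset Pool.Agent.TH124.KE Pool.Agent.W296.HL

section walk

variable {ι : Type*} [DecidableEq ι]

lemma sum_split (s : ι → ℝ) (B : ι → Prop) [DecidablePred B] (L : Finset ι) {a r : ℝ}
    (har : a ≤ r) :
    (∑ y ∈ L, if s y < r then stp B y else 0) =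
      (∑ y ∈ L, if s y < a then stp B y else 0) +
        ∑ y ∈ L, if a ≤ s y ∧ s y < r then stp B y else 0 := by
  rw [← Finset.sum_add_distrib]
  refine Finset.sum_congr rfl fun y _ => ?_
  by_cases h : s y < a
  · have h2 : s y < r := lt_of_lt_of_le h har
    simp [h, h2, not_le.mpr h]
  · have h' := not_lt.mp h
    by_cases h2 : s y < r <;> simp [h, h2, h']

lemma wlk_mid' (s : ι → ℝ) (B : ι → Prop) [DecidablePred B] (L : Finset ι) {a r : ℝ} {x : ι}
    (hx : x ∈ L.filter (fun y => a ≤ s y ∧ s y < r)) :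
    wlk s B L x = (∑ y ∈ L, if s y < a then stp B y else 0) +
      wlk s B (L.filter (fun y => a ≤ s y ∧ s y < r)) x := by
  rw [mem_filter] at hx
  have h := sum_split s B L hx.2.1
  have e : wlk s B L x = ∑ y ∈ L, if s y < s x then stp B y else 0 := rfl
  rw [e, h]
  congr 1
  unfold wlk
  rw [Finset.sum_filter]
  refine Finset.sum_congr rfl fun y _ => ?_
  by_cases h1 : a ≤ s y
  · by_cases h2 : s y < s x
    · simp [h1, h2, h2.trans hx.2.2]
    · simp [h2]
  · simp [h1]

lemma walk_up' (s : ι → ℝ) (B : ι → Prop) [DecidablePred B] (t : ℤ) (L : Finset ι)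
    (hs : Set.InjOn s L) {a r : ℝ} (har : a ≤ r)
    (ha : (∑ y ∈ L, if s y < a then stp B y else 0) ≤ t)
    (hb : t + 1 ≤ (∑ y ∈ L, if s y < r then stp B y else 0)) :
    ∃ x ∈ L, B x ∧ wlk s B L x = t ∧ a ≤ s x ∧ s x < r := by
  set w := ∑ y ∈ L, if s y < a then stp B y else 0 with hw
  set L' := L.filter (fun y => a ≤ s y ∧ s y < r) with hL'
  have h := walk_diff s B (t - w) L'
    (hs.mono (Finset.coe_subset.mpr (Finset.filter_subset _ _)))
  have hsum := sum_split s B L har
  have e2 : (∑ y ∈ L', stp B y) = ∑ y ∈ L, if a ≤ s y ∧ s y < r then stp B y else 0 := by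
    rw [hL', Finset.sum_filter]
  rw [← e2, ← hw] at hsum
  rw [if_neg (by omega), if_pos (by omega)] at h
  have hpos : 0 < #{x ∈ L' | B x ∧ wlk s B L' x = t - w} := by omega
  obtain ⟨x, hx⟩ := Finset.card_pos.mp hpos
  rw [mem_filter] at hx
  have h3 := wlk_mid' s B L (a := a) (r := r) hx.1
  have hxL := (mem_filter.mp hx.1)
  refine ⟨x, hxL.1, hx.2.1, ?_, hxL.2.1, hxL.2.2⟩
  have h4 := hx.2.2
  rw [← hL', ← hw] at h3
  omega

lemma walk_down' (s : ι → ℝ) (B : ι → Prop) [DecidablePred B] (t : ℤ) (L : Finset ι)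
    (hs : Set.InjOn s L) {a r : ℝ} (har : a ≤ r)
    (ha : t + 1 ≤ (∑ y ∈ L, if s y < a then stp B y else 0))
    (hb : (∑ y ∈ L, if s y < r then stp B y else 0) ≤ t) :
    ∃ x ∈ L, ¬ B x ∧ wlk s B L x = t + 1 ∧ a ≤ s x ∧ s x < r := by
  set w := ∑ y ∈ L, if s y < a then stp B y else 0 with hw
  set L' := L.filter (fun y => a ≤ s y ∧ s y < r) with hL'
  have h := walk_diff s B (t - w) L'
    (hs.mono (Finset.coe_subset.mpr (Finset.filter_subset _ _)))
  have hsum := sum_split s B L har
  have e2 : (∑ y ∈ L', stp B y) = ∑ y ∈ L, if a ≤ s y ∧ s y < r then stp B y else 0 := by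
    rw [hL', Finset.sum_filter]
  rw [← e2, ← hw] at hsum
  rw [if_pos (by omega), if_neg (by omega)] at h
  have hpos : 0 < #{x ∈ L' | ¬ B x ∧ wlk s B L' x = t - w + 1} := by omega
  obtain ⟨x, hx⟩ := Finset.card_pos.mp hpos
  rw [mem_filter] at hx
  have h3 := wlk_mid' s B L (a := a) (r := r) hx.1
  have hxL := (mem_filter.mp hx.1)
  refine ⟨x, hxL.1, hx.2.1, ?_, hxL.2.1, hxL.2.2⟩
  have h4 := hx.2.2
  rw [← hL', ← hw] at h3
  omega

end walk

variable {P : Finset (ℝ × ℝ)} {k : ℕ}

lemma corr_le (hP : GP P) {r : ℝ × ℝ} (hr : r ∈ P) (σ : ℝ) :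
    #{q ∈ P | q.1 < r.1 ∧ sl r q = σ} ≤ 1 := by
  rw [Finset.card_le_one]
  intro a ha b hb
  rw [mem_filter] at ha hb
  by_contra hab
  have h1 : r ≠ a := by rintro rfl; exact lt_irrefl _ ha.2.1
  have h2 : r ≠ b := by rintro rfl; exact lt_irrefl _ hb.2.1
  exact hP.col r hr a ha.1 b hb.1 h1 h2 hab (ha.2.2.trans hb.2.2.symm)

/-- a point that is below the `k`-th position and later above it is the left end of a `k`-edge -/
lemma edge_up (hP : GP P) {r : ℝ × ℝ} (hr : r ∈ P) {a b : ℝ} (hab : a ≤ b)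
    (ha : bel P a r < k) (hb : k + 1 ≤ bel P b r) :
    ∃ x, KE P k r x ∧ a ≤ sl r x ∧ sl r x < b := by
  have h1 := bel_eq hP hr a
  have h2 := bel_eq hP hr b
  have h3 := corr_le hP hr a
  obtain ⟨x, hx, hB, hw, h4, h5⟩ := walk_up' (sl r) (fun q => r.1 < q.1) ((k : ℤ) - lft P r)
    (P.erase r) (hP.injOn hr) hab (by omega) (by omega)
  exact ⟨x, (ke_right hP hr).mpr ⟨hx, hB, hw⟩, h4, h5⟩

/-- a point that is above the `k`-th position and later below it is the right end of a `k`-edge -/
lemma edge_down (hP : GP P) {r : ℝ × ℝ} (hr : r ∈ P) {a b : ℝ} (hab : a ≤ b)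
    (ha : k + 1 ≤ bel P a r) (hb : bel P b r < k) :
    ∃ x, KE P k x r ∧ a ≤ sl x r ∧ sl x r < b := by
  have h1 := bel_eq hP hr a
  have h2 := bel_eq hP hr b
  have h3 := corr_le hP hr b
  obtain ⟨x, hx, hB, hw, h4, h5⟩ := walk_down' (sl r) (fun q => r.1 < q.1) ((k : ℤ) - lft P r)
    (P.erase r) (hP.injOn hr) hab (by omega) (by omega)
  refine ⟨x, (ke_left hP hr).mpr ⟨hx, hB, hw⟩, ?_, ?_⟩
  · rw [sl_comm x r]; exact h4
  · rw [sl_comm x r]; exact h5

lemma bel_lt {e : Seg} (he : KE P k e.1 e.2) {r : ℝ × ℝ} (hr : r ∈ P)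
    (h : hh (ss e) r < hh (ss e) e.1) : bel P (ss e) r < k := by
  have h1 : bel P (ss e) e.1 = k := he.2.2.2
  rw [← h1]
  unfold bel
  apply Finset.card_lt_card
  rw [Finset.ssubset_iff_of_subset]
  · refine ⟨r, ?_, ?_⟩
    · rw [mem_filter]; exact ⟨hr, h⟩
    · rw [mem_filter]; rintro ⟨-, h2⟩; exact lt_irrefl _ h2
  · intro x hx
    rw [mem_filter] at hx ⊢
    exact ⟨hx.1, hx.2.trans h⟩

lemma bel_gt {e : Seg} (he : KE P k e.1 e.2) {r : ℝ × ℝ}
    (h : hh (ss e) e.1 < hh (ss e) r) : k + 1 ≤ bel P (ss e) r := by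
  have h1 : bel P (ss e) e.1 = k := he.2.2.2
  have h2 : bel P (ss e) e.1 < bel P (ss e) r := by
    unfold bel
    apply Finset.card_lt_card
    rw [Finset.ssubset_iff_of_subset]
    · refine ⟨e.1, ?_, ?_⟩
      · rw [mem_filter]; exact ⟨he.1, h⟩
      · rw [mem_filter]; rintro ⟨-, h2⟩; exact lt_irrefl _ h2
    · intro x hx
      rw [mem_filter] at hx ⊢
      exact ⟨hx.1, hx.2.trans h⟩
  omega

lemma not_on (hP : GP P) {e : Seg} (he : KE P k e.1 e.2) {r : ℝ × ℝ} (hr : r ∈ P)
    (h1 : r ≠ e.1) (h2 : r ≠ e.2) : hh (ss e) r ≠ hh (ss e) e.1 := by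
  intro h
  have h3 : e.1.1 ≠ r.1 := hP.ne1 he.1 hr h1.symm
  rw [hh_eq h3] at h
  have h4 : e.1 ≠ e.2 := by
    intro h5
    have := he.2.2.1
    rw [h5] at this
    exact lt_irrefl _ this
  exact hP.col e.1 he.1 e.2 he.2.1 r hr h4 h1.symm h2.symm h.symm

/-- a point that is not on a `k`-edge with slope in an interval stays on the same side -/
lemma same_side (hP : GP P) {e f : Seg} (he : KE P k e.1 e.2) (hf : KE P k f.1 f.2)
    (hef : ss e ≤ ss f) {r : ℝ × ℝ} (hr : r ∈ P)
    (hno : ∀ g ∈ kes P k, ss e ≤ ss g → ss g ≤ ss f → r ≠ g.1 ∧ r ≠ g.2) :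
    (hh (ss e) r < hh (ss e) e.1 ↔ hh (ss f) r < hh (ss f) f.1) := by
  have he' := hno e (mem_kes.mpr he) le_rfl hef
  have hf' := hno f (mem_kes.mpr hf) hef le_rfl
  have h1 := not_on hP he hr he'.1 he'.2
  have h2 := not_on hP hf hr hf'.1 hf'.2
  constructor
  · intro h
    by_contra h3
    have h4 : hh (ss f) f.1 < hh (ss f) r := lt_of_le_of_ne (not_lt.mp h3) h2.symm
    obtain ⟨x, hx, h5, h6⟩ := edge_up hP hr hef (bel_lt he hr h) (bel_gt hf h4)
    exact (hno (r, x) (mem_kes.mpr hx) h5 h6.le).1 rfl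
  · intro h
    by_contra h3
    have h4 : hh (ss e) e.1 < hh (ss e) r := lt_of_le_of_ne (not_lt.mp h3) h1.symm
    obtain ⟨x, hx, h5, h6⟩ := edge_down hP hr hef (bel_gt he h4) (bel_lt hf hr h)
    exact (hno (x, r) (mem_kes.mpr hx) h5 h6.le).2 rfl

open scoped Classical in
/-- the endpoints of the members of a set of segments -/
noncomputable def verts (F : Finset Seg) : Finset (ℝ × ℝ) := F.image Prod.fst ∪ F.image Prod.snd

lemma mem_verts {F : Finset Seg} {p : ℝ × ℝ} : p ∈ verts F ↔ ∃ e ∈ F, p = e.1 ∨ p = e.2 := by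
  classical
  unfold verts
  rw [mem_union, mem_image, mem_image]
  constructor
  · rintro (⟨e, he, rfl⟩ | ⟨e, he, rfl⟩)
    · exact ⟨e, he, Or.inl rfl⟩
    · exact ⟨e, he, Or.inr rfl⟩
  · rintro ⟨e, he, rfl | rfl⟩
    · exact Or.inl ⟨e, he, rfl⟩
    · exact Or.inr ⟨e, he, rfl⟩

lemma verts_sub {F : Finset Seg} (hF : F ⊆ kes P k) : verts F ⊆ P := by
  intro p hp
  obtain ⟨e, he, rfl | rfl⟩ := mem_verts.mp hp
  · exact (mem_kes.mp (hF he)).1
  · exact (mem_kes.mp (hF he)).2.1

/-- **consecutive `k`-edges are `j`-edges of the set of their endpoints** -/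
theorem block (hP : GP P) {F : Finset Seg} (hF : F ⊆ kes P k)
    (hconv : ∀ e ∈ F, ∀ f ∈ F, ∀ g ∈ kes P k, ss e ≤ ss g → ss g ≤ ss f → g ∈ F) :
    ∃ j, F ⊆ kes (verts F) j := by
  classical
  rcases F.eq_empty_or_nonempty with rfl | ⟨e₀, he₀⟩
  · exact ⟨0, empty_subset _⟩
  have hside : ∀ e ∈ F, ∀ f ∈ F, ss e ≤ ss f → ∀ r ∈ P \ verts F,
      (hh (ss e) r < hh (ss e) e.1 ↔ hh (ss f) r < hh (ss f) f.1) := by
    intro e he f hf hef r hr
    rw [mem_sdiff] at hr
    refine same_side hP (mem_kes.mp (hF he)) (mem_kes.mp (hF hf)) hef hr.1 ?_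
    intro g hg h1 h2
    have h3 := hconv e he f hf g hg h1 h2
    constructor
    · intro h4
      exact hr.2 (mem_verts.mpr ⟨g, h3, Or.inl h4⟩)
    · intro h4
      exact hr.2 (mem_verts.mpr ⟨g, h3, Or.inr h4⟩)
  have hN : ∀ e ∈ F, #{r ∈ P \ verts F | hh (ss e) r < hh (ss e) e.1} =
      #{r ∈ P \ verts F | hh (ss e₀) r < hh (ss e₀) e₀.1} := by
    intro e he
    congr 1
    apply Finset.filter_congr
    intro r hr
    rcases le_total (ss e) (ss e₀) with h | h
    · exact hside e he e₀ he₀ h r hr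
    · exact (hside e₀ he₀ e he h r hr).symm
  have hsplit : ∀ e ∈ F, bel (verts F) (ss e) e.1 +
      #{r ∈ P \ verts F | hh (ss e) r < hh (ss e) e.1} = k := by
    intro e he
    have h1 : bel P (ss e) e.1 = k := (mem_kes.mp (hF he)).2.2.2
    rw [← h1]
    unfold bel
    rw [← Finset.card_union_of_disjoint]
    · rw [← Finset.filter_union, Finset.union_sdiff_of_subset (verts_sub hF)]
    · apply Finset.disjoint_filter_filter
      exact Finset.disjoint_sdiff
  refine ⟨k - #{r ∈ P \ verts F | hh (ss e₀) r < hh (ss e₀) e₀.1}, ?_⟩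
  intro e he
  rw [mem_kes]
  refine ⟨mem_verts.mpr ⟨e, he, Or.inl rfl⟩, mem_verts.mpr ⟨e, he, Or.inr rfl⟩,
    (mem_kes.mp (hF he)).2.2.1, ?_⟩
  have h1 := hsplit e he
  rw [hN e he] at h1
  have h2 : sl e.1 e.2 = ss e := rfl
  rw [h2]
  omega

/-- **thin bands**: if every endpoint of a `k`-edge of slope `σ` belongs to an order-connected
member containing `σ` of a family, and every `σ` belongs to at most `V` members, then there are
at most `(|I| / (V + 1) + 1) G` edges, where `G` bounds the number of `j`-edges for `2 V` points. -/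
theorem greedy (hP : GP P) {κ : Type*} (I : Finset κ) (pt : κ → ℝ × ℝ) (J : κ → Set ℝ)
    (hJ : ∀ i ∈ I, (J i).OrdConnected) (V : ℕ)
    (hcov : ∀ e ∈ kes P k, ∀ p, (p = e.1 ∨ p = e.2) → ∃ i ∈ I, pt i = p ∧ ss e ∈ J i)
    (hply : ∀ σ : ℝ, {i | i ∈ I ∧ σ ∈ J i}.ncard ≤ V) (G : ℝ)
    (hG : ∀ (Q : Finset (ℝ × ℝ)) (j : ℕ), GP Q → Q ⊆ P → #Q ≤ 2 * V → (#(kes Q j) : ℝ) ≤ G) :
    (#(kes P k) : ℝ) * (V + 1) ≤ (#I + (V + 1)) * G := by
  classical
  have hG0 : 0 ≤ G := by
    have h := hG ∅ 0 ⟨fun p hp => absurd hp (notMem_empty _), fun p hp =>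
      absurd hp (notMem_empty _)⟩ (empty_subset _) (by simp)
    exact le_trans (Nat.cast_nonneg _) h
  have hply' : ∀ σ : ℝ, #{i ∈ I | σ ∈ J i} ≤ V := by
    intro σ
    have h := hply σ
    rw [← Set.ncard_coe_finset]
    convert h using 2
    ext i
    simp
  have key : ∀ (m : ℕ) (a : ℝ), #{i ∈ I | ∀ x ∈ J i, a < x} = m →
      (#{e ∈ kes P k | a ≤ ss e} : ℝ) * (V + 1) ≤ (m + (V + 1)) * G := by
    intro m
    induction m using Nat.strong_induction_on with
    | _ m ih =>
    intro a ha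
    set F := {e ∈ kes P k | a ≤ ss e} with hFdef
    have hFs : F ⊆ kes P k := Finset.filter_subset _ _
    by_cases hsmall : #(verts F) ≤ 2 * V
    · obtain ⟨j, hj⟩ := block hP hFs (by
        intro e he f hf g hg h1 h2
        rw [hFdef, mem_filter] at he ⊢
        exact ⟨hg, he.2.trans h1⟩)
      have h1 : (#F : ℝ) ≤ G := by
        refine le_trans ?_ (hG (verts F) j ?_ (verts_sub hFs) hsmall)
        · exact_mod_cast Finset.card_le_card hj
        · exact ⟨fun p hp q hq => hP.inj p (verts_sub hFs hp) q (verts_sub hFs hq),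
            fun p hp q hq r hr => hP.col p (verts_sub hFs hp) q (verts_sub hFs hq) r
              (verts_sub hFs hr)⟩
      have hm0 : (0 : ℝ) ≤ m := Nat.cast_nonneg _
      have hV0 : (0 : ℝ) ≤ V := Nat.cast_nonneg _
      nlinarith
    · push Not at hsmall
      -- the smallest slope `b` at which there are more than `2 V` endpoints
      set S := (F.image ss).filter (fun b => 2 * V < #(verts {e ∈ F | ss e ≤ b})) with hS
      have hFne : F.Nonempty := by
        rw [nonempty_iff_ne_empty]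
        intro h0
        rw [h0] at hsmall
        simp [verts] at hsmall
      have hSne : S.Nonempty := by
        refine ⟨(F.image ss).max' (hFne.image _), ?_⟩
        rw [hS, mem_filter]
        refine ⟨Finset.max'_mem _ _, ?_⟩
        have : {e ∈ F | ss e ≤ (F.image ss).max' (hFne.image _)} = F := by
          apply Finset.filter_true_of_mem
          intro e he
          exact Finset.le_max' _ _ (mem_image_of_mem _ he)
        rw [this]
        exact hsmall
      set b := S.min' hSne with hb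
      have hbS : b ∈ S := Finset.min'_mem _ _
      rw [hS, mem_filter, mem_image] at hbS
      obtain ⟨⟨e₁, he₁, he₁b⟩, hbig⟩ := hbS
      have hab : a ≤ b := by
        rw [hFdef, mem_filter] at he₁
        rw [← he₁b]
        exact he₁.2
      set B := {e ∈ F | ss e < b} with hB
      have hBs : B ⊆ kes P k := (Finset.filter_subset _ _).trans hFs
      have hBsmall : #(verts B) ≤ 2 * V := by
        rcases B.eq_empty_or_nonempty with h0 | h0
        · rw [h0]; simp [verts]
        · by_contra hcon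
          push Not at hcon
          have h1 : (B.image ss).max' (h0.image _) ∈ S := by
            rw [hS, mem_filter]
            have h2 := Finset.max'_mem (B.image ss) (h0.image _)
            constructor
            · rw [mem_image] at h2 ⊢
              obtain ⟨e, he, h3⟩ := h2
              exact ⟨e, (Finset.filter_subset _ _) he, h3⟩
            · refine lt_of_lt_of_le hcon (Finset.card_le_card ?_)
              intro p hp
              obtain ⟨e, he, h3⟩ := mem_verts.mp hp
              refine mem_verts.mpr ⟨e, ?_, h3⟩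
              rw [mem_filter]
              exact ⟨(Finset.filter_subset _ _) he, Finset.le_max' _ _ (mem_image_of_mem _ he)⟩
          have h2 := Finset.min'_le _ _ h1
          have h3 := Finset.max'_mem (B.image ss) (h0.image _)
          rw [mem_image] at h3
          obtain ⟨e, he, h4⟩ := h3
          rw [hB, mem_filter] at he
          have h5 : b ≤ ss e := by
            rw [h4, hb]
            exact h2
          linarith [he.2]
      obtain ⟨j, hj⟩ := block hP hBs (by
        intro e he f hf g hg h1 h2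
        rw [hB, mem_filter] at he hf ⊢
        rw [hFdef, mem_filter] at he ⊢
        exact ⟨⟨hg, he.1.2.trans h1⟩, lt_of_le_of_lt h2 hf.2⟩)
      have hBG : (#B : ℝ) ≤ G := by
        refine le_trans ?_ (hG (verts B) j ?_ (verts_sub hBs) hBsmall)
        · exact_mod_cast Finset.card_le_card hj
        · exact ⟨fun p hp q hq => hP.inj p (verts_sub hBs hp) q (verts_sub hBs hq),
            fun p hp q hq r hr => hP.col p (verts_sub hBs hp) q (verts_sub hBs hq) r
              (verts_sub hBs hr)⟩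
      have hFsplit : #F = #B + #{e ∈ kes P k | b ≤ ss e} := by
        rw [← Finset.card_union_of_disjoint]
        · congr 1
          ext e
          simp only [hB, hFdef, mem_union, mem_filter]
          constructor
          · rintro ⟨h1, h2⟩
            rcases lt_or_ge (ss e) b with h3 | h3
            · exact Or.inl ⟨⟨h1, h2⟩, h3⟩
            · exact Or.inr ⟨h1, h3⟩
          · rintro (⟨h1, -⟩ | ⟨h1, h2⟩)
            · exact h1
            · exact ⟨h1, hab.trans h2⟩
        · rw [Finset.disjoint_left]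
          intro e he he'
          rw [hB, mem_filter] at he
          rw [mem_filter] at he'
          linarith [he.2, he'.2]
      -- counting the members of the family
      have hcount : #{i ∈ I | ∀ x ∈ J i, b < x} + (V + 1) ≤ m := by
        set U := verts {e ∈ F | ss e ≤ b} with hU
        have hch : ∀ u ∈ U, ∃ i ∈ I, pt i = u ∧ ∃ σ ∈ J i, a ≤ σ ∧ σ ≤ b := by
          intro u hu
          obtain ⟨e, he, h3⟩ := mem_verts.mp hu
          rw [mem_filter, hFdef, mem_filter] at he
          obtain ⟨i, hi, h4, h5⟩ := hcov e he.1.1 u h3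
          exact ⟨i, hi, h4, ss e, h5, he.1.2, he.2⟩
        obtain ⟨u₀, hu₀⟩ : U.Nonempty := Finset.card_pos.mp (by omega)
        obtain ⟨i₀, -⟩ := hch u₀ hu₀
        haveI : Nonempty κ := ⟨i₀⟩
        choose! ι hι1 hι2 hι3 using hch
        have hTcard : #(U.image ι) = #U := by
          apply Finset.card_image_of_injOn
          intro u hu v hv huv
          rw [← hι2 u hu, ← hι2 v hv, huv]
        have hTsub : U.image ι ⊆ {i ∈ I | a ∈ J i} ∪
            ({i ∈ I | ∀ x ∈ J i, a < x} \ {i ∈ I | ∀ x ∈ J i, b < x}) := by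
          intro i hi
          rw [mem_image] at hi
          obtain ⟨u, hu, rfl⟩ := hi
          rw [mem_union, mem_filter, mem_sdiff, mem_filter, mem_filter]
          by_cases h1 : a ∈ J (ι u)
          · exact Or.inl ⟨hι1 u hu, h1⟩
          · right
            obtain ⟨σ, hσ, h2, h3⟩ := hι3 u hu
            refine ⟨⟨hι1 u hu, ?_⟩, ?_⟩
            · intro x hx
              by_contra h4
              push Not at h4
              exact h1 ((hJ _ (hι1 u hu)).out hx hσ ⟨h4, h2⟩)
            · rintro ⟨-, h4⟩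
              have := h4 σ hσ
              linarith
        have h1 := Finset.card_le_card hTsub
        have h2 := Finset.card_union_le {i ∈ I | a ∈ J i}
            ({i ∈ I | ∀ x ∈ J i, a < x} \ {i ∈ I | ∀ x ∈ J i, b < x})
        have h3 := hply' a
        have h4 : {i ∈ I | ∀ x ∈ J i, b < x} ⊆ {i ∈ I | ∀ x ∈ J i, a < x} := by
          intro i hi
          rw [mem_filter] at hi ⊢
          exact ⟨hi.1, fun x hx => lt_of_le_of_lt hab (hi.2 x hx)⟩
        have h5 := Finset.card_sdiff_add_card_eq_card h4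
        rw [hTcard] at h1
        omega
      have h6 := ih _ (by omega) b rfl
      have h7 : (#F : ℝ) = #B + #{e ∈ kes P k | b ≤ ss e} := by exact_mod_cast hFsplit
      have h8 : ((#{i ∈ I | ∀ x ∈ J i, b < x} : ℕ) : ℝ) + (V + 1) ≤ m := by
        exact_mod_cast hcount
      have hV0 : (0 : ℝ) ≤ V := Nat.cast_nonneg _
      rw [h7]
      nlinarith
  -- start below all slopes
  obtain ⟨a, ha⟩ : ∃ a : ℝ, ∀ e ∈ kes P k, a ≤ ss e := by
    rcases (kes P k).eq_empty_or_nonempty with h0 | h0
    · exact ⟨0, by rw [h0]; simp⟩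
    · refine ⟨((kes P k).image ss).min' (h0.image _), fun e he => ?_⟩
      exact Finset.min'_le _ _ (mem_image_of_mem _ he)
  have h1 := key _ a rfl
  have h2 : {e ∈ kes P k | a ≤ ss e} = kes P k := Finset.filter_true_of_mem ha
  rw [h2] at h1
  have h3 : ((#{i ∈ I | ∀ x ∈ J i, a < x} : ℕ) : ℝ) ≤ #I := by
    exact_mod_cast Finset.card_le_card (Finset.filter_subset _ _)
  nlinarith

end Pool.Agent.K7.H30.HB
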